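import Pool.Agent.W2helper90.RT.IBP

set_option autoImplicit false

/-! # Pieces PERP and ANG -/

open MeasureTheory Set Filter Topology
open scoped RealInnerProductSpace

namespace Pool.Agent.W2helper90.RT

open Pool.Agent.N537.RS (hdim Hpoly)

/-- a polynomial as a function -/
noncomputable def pf {k : ℕ} (p : MvPolynomial (Fin k) ℝ) (x : E k) : ℝ :=
  MvPolynomial.eval (fun i => x i) p

theorem pf_smooth {k : ℕ} (p : MvPolynomial (Fin k) ℝ) : ContDiff ℝ (⊤ : ℕ∞) (pf p) := by
  unfold pf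
  induction p using MvPolynomial.induction_on with
  | C a => simpa using contDiff_const
  | add p q hp hq => simpa using hp.add hq
  | mul_X p i hp =>
    have h1 : ContDiff ℝ (⊤ : ℕ∞) (fun x : E k => x i) :=
      (EuclideanSpace.proj i : E k →L[ℝ] ℝ).contDiff
    simpa using hp.mul h1

theorem rd_smooth {k : ℕ} (i j : Fin k) {f : E k → ℝ} (hf : ContDiff ℝ (⊤ : ℕ∞) f) :
    ContDiff ℝ (⊤ : ℕ∞) (rd i j f) := by
  have h : rd i j f = fun x => fderiv ℝ f x (gen i j x) := funext fun x => rd_eq i j f x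
  rw [h]
  exact (hf.fderiv_right (by simp)).clm_apply (gen i j).contDiff

theorem sm_int {k : ℕ} {f : S k → ℝ} (hf : Continuous f) : Integrable f (sm k) :=
  hf.integrable_of_hasCompactSupport (HasCompactSupport.of_compactSpace _)

theorem sm_mul {k : ℕ} {a b : S k → ℝ} (ha : Continuous a) (hb : Continuous b) :
    Integrable (fun w => a w * b w) (sm k) := sm_int (ha.mul hb)

theorem one_le_top : (1 : WithTop ℕ∞) ≤ ((⊤ : ℕ∞) : WithTop ℕ∞) := by
  exact_mod_cast le_top

theorem C1' {k : ℕ} {f : E k → ℝ} (hf : ContDiff ℝ (⊤ : ℕ∞) f) : ContDiff ℝ 1 f :=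
  hf.of_le one_le_top

theorem t_PERP (h1 : S_IBP) (h2 : S_CAS) : S_PERP := by
  intro k l l' hk hne e e' he he'
  obtain ⟨p, hp, hpe⟩ := he
  obtain ⟨q, hq, hqe⟩ := he'
  have sp := pf_smooth p
  have sq := pf_smooth q
  have a1 := h2 k l (by omega) p hp
  have a2 := h2 k l' (by omega) q hq
  have b1 : ∀ i j, ∫ w : S k, rd i j (rd i j (pf p)) w * pf q w ∂(sm k) =
      ∫ w : S k, pf p w * rd i j (rd i j (pf q)) w ∂(sm k) := by
    intro i j
    rw [h1 k i j _ _ (C1' (rd_smooth i j sp)) (C1' sq)]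
    have := h1 k i j _ _ (C1' sp) (C1' (rd_smooth i j sq))
    linarith
  have c1 : ∀ i j, Integrable (fun w : S k => rd i j (rd i j (pf p)) w * pf q w) (sm k) :=
    fun i j => sm_int (((rd_smooth i j (rd_smooth i j sp)).continuous.mul sq.continuous).comp
      continuous_subtype_val)
  have c2 : ∀ i j, Integrable (fun w : S k => pf p w * rd i j (rd i j (pf q)) w) (sm k) :=
    fun i j => sm_int ((sp.continuous.mul (rd_smooth i j (rd_smooth i j sq)).continuous).comp
      continuous_subtype_val)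
  have d1 : ∫ w : S k, (∑ i, ∑ j, rd i j (rd i j (pf p)) w) * pf q w ∂(sm k) =
      ∫ w : S k, pf p w * (∑ i, ∑ j, rd i j (rd i j (pf q)) w) ∂(sm k) := by
    simp only [Finset.sum_mul, Finset.mul_sum]
    rw [integral_finsetSum _ fun i _ => integrable_finsetSum _ fun j _ => c1 i j,
      integral_finsetSum _ fun i _ => integrable_finsetSum _ fun j _ => c2 i j]
    refine Finset.sum_congr rfl fun i _ => ?_
    rw [integral_finsetSum _ fun j _ => c1 i j, integral_finsetSum _ fun j _ => c2 i j]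
    exact Finset.sum_congr rfl fun j _ => b1 i j
  have e1 : ∀ w : S k, (∑ i, ∑ j, rd i j (rd i j (pf p)) w) * pf q w =
      (-(2 * ((l : ℝ) * (l + k - 2)))) * (e w * e' w) := by
    intro w
    have := a1 (w : E k)
    change ∑ i, ∑ j, rd i j (rd i j (pf p)) (w : E k) = _ at this
    rw [this, hpe, hqe]
    unfold pf
    ring
  have e2 : ∀ w : S k, pf p w * (∑ i, ∑ j, rd i j (rd i j (pf q)) w) =
      (-(2 * ((l' : ℝ) * (l' + k - 2)))) * (e w * e' w) := by
    intro w
    have := a2 (w : E k)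
    change ∑ i, ∑ j, rd i j (rd i j (pf q)) (w : E k) = _ at this
    rw [this, hpe, hqe]
    unfold pf
    ring
  simp only [e1, e2, integral_const_mul] at d1
  have hk' : (3 : ℝ) ≤ k := by exact_mod_cast hk
  have hl : (0 : ℝ) ≤ l := Nat.cast_nonneg l
  have hl' : (0 : ℝ) ≤ l' := Nat.cast_nonneg l'
  have f1 : (((l : ℝ) - l') * (l + l' + k - 2)) * ∫ w : S k, e w * e' w ∂(sm k) = 0 := by
    linear_combination (-1 / 2) * d1
  rcases mul_eq_zero.1 f1 with h | h
  · exfalso
    rcases mul_eq_zero.1 h with h | h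
    · exact hne (by exact_mod_cast sub_eq_zero.1 h)
    · linarith
  · exact h

theorem rd_sum {k : ℕ} {ι : Type} (i j : Fin k) (s : Finset ι) (c : ι → ℝ) (P : ι → E k → ℝ)
    (hP : ∀ p, ContDiff ℝ (⊤ : ℕ∞) (P p)) :
    rd i j (fun x => ∑ p ∈ s, c p * P p x) = fun x => ∑ p ∈ s, c p * rd i j (P p) x := by
  funext x
  unfold rd
  have hd : ∀ p, DifferentiableAt ℝ (P p) x := fun p => (hP p).differentiable (by simp) x
  have h1 : HasFDerivAt (fun y => ∑ p ∈ s, c p * P p y) (∑ p ∈ s, c p • fderiv ℝ (P p) x) x :=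
    HasFDerivAt.fun_sum fun p _ => (hd p).hasFDerivAt.const_mul (c p)
  rw [h1.fderiv]
  simp

theorem lagrange {k : ℕ} (f : E k → ℝ) (w : S k) :
    ∑ i, ∑ j, rd i j f w ^ 2 = 2 * tang f w := by
  set L := fderiv ℝ f (w : E k) with hL
  set a : Fin k → ℝ := fun i => L (EuclideanSpace.single i (1 : ℝ)) with ha
  have h1 : ∀ i j, rd i j f w = (w : E k) i * a j - (w : E k) j * a i := by
    intro i j
    unfold rd
    rw [← hL, map_sub, map_smul, map_smul, smul_eq_mul, smul_eq_mul]
  have h2 : L w = ∑ i, (w : E k) i * a i := by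
    have h3 : (w : E k) = ∑ i, (w : E k) i • EuclideanSpace.single i (1 : ℝ) := by
      ext j
      simp [Finset.sum_apply, Pi.single_apply]
    conv_lhs => rw [h3]
    rw [map_sum]
    exact Finset.sum_congr rfl fun i _ => by rw [map_smul, smul_eq_mul]
  have h3 : ∑ i, (w : E k) i ^ 2 = 1 := by
    have h4 : ‖(w : E k)‖ = 1 := Pool.Agent.N303.SH.S_norm w
    have h5 := EuclideanSpace.norm_sq_eq (w : E k)
    rw [h4] at h5
    simp only [Real.norm_eq_abs, sq_abs] at h5
    linarith
  unfold tang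
  rw [← hL, h2]
  simp only [h1]
  have e1 : ∀ i j : Fin k, ((w : E k) i * a j - (w : E k) j * a i) ^ 2 =
      (w : E k) i ^ 2 * a j ^ 2 + a i ^ 2 * (w : E k) j ^ 2 -
        2 * (((w : E k) i * a i) * ((w : E k) j * a j)) := fun i j => by ring
  simp only [e1, Finset.sum_sub_distrib, Finset.sum_add_distrib, ← Finset.mul_sum,
    ← Finset.sum_mul]
  rw [h3]
  have : ∑ i, L (EuclideanSpace.single i (1 : ℝ)) ^ 2 = ∑ i, a i ^ 2 := rfl
  rw [this]
  ring

theorem t_ANG (h1 : S_IBP) (h2 : S_CAS) : S_ANG := by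
  classical
  intro k hk g e he f hf L
  choose p hp hpe using he.harm
  set s : Finset (Σ l, Fin (g l)) := (Finset.range L).sigma fun _ => Finset.univ with hs
  set P : (Σ l, Fin (g l)) → E k → ℝ := fun q => pf (p q.1 q.2) with hP
  have sP : ∀ q, ContDiff ℝ (⊤ : ℕ∞) (P q) := fun q => pf_smooth _
  set c : (Σ l, Fin (g l)) → ℝ := fun q => ∫ w, e q.1 q.2 w * f w ∂(sm k) with hc
  set μ : (Σ l, Fin (g l)) → ℝ := fun q => (q.1 : ℝ) * (q.1 + k - 2) with hμ
  have hPe : ∀ q (w : S k), P q w = e q.1 q.2 w := fun q w => (hpe q.1 q.2 w).symm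
  have hlhs : ∑ l ∈ Finset.range L, ∑ j, ((l : ℝ) * (l + k - 2)) *
      (∫ w, e l j w * f w ∂(sm k)) ^ 2 = ∑ q ∈ s, μ q * c q ^ 2 := by
    rw [hs, Finset.sum_sigma]
  rw [hlhs]
  set F : E k → ℝ := fun x => ∑ q ∈ s, c q * P q x with hF
  have sF : ContDiff ℝ (⊤ : ℕ∞) F := ContDiff.sum fun q _ => contDiff_const.mul (sP q)
  have hcas : ∀ x, ∑ i, ∑ j, rd i j (rd i j F) x = ∑ q ∈ s, (-(2 * μ q)) * (c q * P q x) := by
    intro x
    have a1 : ∀ i j, rd i j (rd i j F) x = ∑ q ∈ s, c q * rd i j (rd i j (P q)) x := by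
      intro i j
      rw [hF, rd_sum i j s c P sP, rd_sum i j s c _ fun q => rd_smooth i j (sP q)]
    simp only [a1]
    have a2 : ∑ i, ∑ j, ∑ q ∈ s, c q * rd i j (rd i j (P q)) x =
        ∑ q ∈ s, c q * ∑ i, ∑ j, rd i j (rd i j (P q)) x := by
      simp only [Finset.mul_sum]
      rw [Finset.sum_comm (s := s)]
      refine Finset.sum_congr rfl fun i _ => ?_
      rw [Finset.sum_comm]
    rw [a2]
    refine Finset.sum_congr rfl fun q _ => ?_
    have a3 := h2 k q.1 (by omega) (p q.1 q.2) (hp q.1 q.2) x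
    change ∑ i, ∑ j, rd i j (rd i j (P q)) x = _ at a3
    rw [a3, hμ]
    simp only [hP, pf]
    ring
  have hon : ∀ q r : Σ l, Fin (g l), ∫ w, e q.1 q.2 w * e r.1 r.2 w ∂(sm k) =
      if q = r then (1 : ℝ) else 0 := by
    rintro ⟨l, j⟩ ⟨l', j'⟩
    by_cases hl : l = l'
    · subst hl
      rw [he.one]
      by_cases hj : j = j'
      · subst hj
        rw [if_pos rfl, if_pos rfl]
      · rw [if_neg hj, if_neg]
        rintro h
        exact hj (by simpa using h)
    · rw [he.ne _ _ _ _ hl, if_neg]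
      rintro h
      exact hl (congrArg Sigma.fst h)
  have hFe : ∀ q ∈ s, ∫ w : S k, F w * P q w ∂(sm k) = c q := by
    intro q hq
    have a1 : ∀ w : S k, F w * P q w = ∑ r ∈ s, c r * (e r.1 r.2 w * e q.1 q.2 w) := by
      intro w
      rw [hF]
      simp only
      rw [Finset.sum_mul]
      refine Finset.sum_congr rfl fun r _ => ?_
      rw [hPe, hPe]
      ring
    simp only [a1]
    rw [integral_finsetSum _ fun r _ => (sm_int ((e r.1 r.2).continuous.mul
      (e q.1 q.2).continuous)).const_mul _]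
    simp only [integral_const_mul, hon, mul_ite, mul_one, mul_zero]
    rw [Finset.sum_ite_eq' s q, if_pos hq]
  have cf : ∀ i j, Continuous (fun w : S k => rd i j f w) := fun i j =>
    (rd_cont i j hf).comp continuous_subtype_val
  have cF : ∀ i j, Continuous (fun w : S k => rd i j F w) := fun i j =>
    (rd_smooth i j sF).continuous.comp continuous_subtype_val
  have cFF : ∀ i j, Continuous (fun w : S k => rd i j (rd i j F) w) := fun i j =>
    (rd_smooth i j (rd_smooth i j sF)).continuous.comp continuous_subtype_val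
  have cfs : Continuous (fun w : S k => f w) := hf.continuous.comp continuous_subtype_val
  have cFs : Continuous (fun w : S k => F w) := sF.continuous.comp continuous_subtype_val
  have cPs : ∀ q, Continuous (fun w : S k => P q w) := fun q =>
    (sP q).continuous.comp continuous_subtype_val
  -- the mixed term, for any function `h`
  have mixed : ∀ h : E k → ℝ, ContDiff ℝ 1 h →
      ∑ i, ∑ j, ∫ w : S k, rd i j h w * rd i j F w ∂(sm k) =
        ∑ q ∈ s, 2 * μ q * (c q * ∫ w : S k, h w * P q w ∂(sm k)) := by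
    intro h hh
    have chs : Continuous (fun w : S k => h w) := hh.continuous.comp continuous_subtype_val
    have a1 : ∀ i j, ∫ w : S k, rd i j h w * rd i j F w ∂(sm k) =
        -∫ w : S k, h w * rd i j (rd i j F) w ∂(sm k) := fun i j =>
      h1 k i j h (rd i j F) hh (C1' (rd_smooth i j sF))
    simp only [a1, Finset.sum_neg_distrib]
    have a2 : ∑ i, ∑ j, ∫ w : S k, h w * rd i j (rd i j F) w ∂(sm k) =
        ∫ w : S k, h w * ∑ i, ∑ j, rd i j (rd i j F) w ∂(sm k) := by
      simp only [Finset.mul_sum]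
      rw [integral_finsetSum _ fun i _ => integrable_finsetSum _ fun j _ =>
        sm_mul chs (cFF i j)]
      refine Finset.sum_congr rfl fun i _ => ?_
      rw [integral_finsetSum _ fun j _ => sm_mul chs (cFF i j)]
    rw [a2]
    have a3 : ∀ w : S k, h w * ∑ i, ∑ j, rd i j (rd i j F) w =
        ∑ q ∈ s, (-(2 * μ q * c q)) * (h w * P q w) := by
      intro w
      rw [hcas, Finset.mul_sum]
      exact Finset.sum_congr rfl fun q _ => by ring
    simp only [a3]
    rw [integral_finsetSum _ fun q _ => (sm_mul chs (cPs q)).const_mul _,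
      ← Finset.sum_neg_distrib]
    refine Finset.sum_congr rfl fun q _ => ?_
    rw [integral_const_mul]
    ring
  have t2 := mixed f hf
  have t3 := mixed F (C1' sF)
  have t2' : ∑ i, ∑ j, ∫ w : S k, rd i j f w * rd i j F w ∂(sm k) = 2 * ∑ q ∈ s, μ q * c q ^ 2 := by
    rw [t2, Finset.mul_sum]
    refine Finset.sum_congr rfl fun q _ => ?_
    have : ∫ w : S k, f w * P q w ∂(sm k) = c q := by
      rw [hc]
      refine integral_congr_ae (ae_of_all _ fun w => ?_)
      simp only
      rw [hPe, mul_comm]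
    rw [this]
    ring
  have t3' : ∑ i, ∑ j, ∫ w : S k, rd i j F w * rd i j F w ∂(sm k) = 2 * ∑ q ∈ s, μ q * c q ^ 2 := by
    rw [t3, Finset.mul_sum]
    refine Finset.sum_congr rfl fun q hq => ?_
    rw [hFe q hq]
    ring
  have t1 : ∑ i, ∑ j, ∫ w : S k, rd i j f w * rd i j f w ∂(sm k) =
      2 * ∫ w : S k, tang f w ∂(sm k) := by
    rw [← integral_const_mul]
    simp only [← lagrange, sq]
    rw [integral_finsetSum _ fun i _ => integrable_finsetSum _ fun j _ =>
      sm_mul (cf i j) (cf i j)]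
    refine Finset.sum_congr rfl fun i _ => ?_
    rw [integral_finsetSum _ fun j _ => sm_mul (cf i j) (cf i j)]
  have t0 : 0 ≤ ∑ i, ∑ j, ∫ w : S k, (rd i j f w - rd i j F w) ^ 2 ∂(sm k) :=
    Finset.sum_nonneg fun i _ => Finset.sum_nonneg fun j _ => integral_nonneg fun w => sq_nonneg _
  have t4 : ∑ i, ∑ j, ∫ w : S k, (rd i j f w - rd i j F w) ^ 2 ∂(sm k) =
      ∑ i, ∑ j, ∫ w : S k, rd i j f w * rd i j f w ∂(sm k) -
      2 * ∑ i, ∑ j, ∫ w : S k, rd i j f w * rd i j F w ∂(sm k) +
      ∑ i, ∑ j, ∫ w : S k, rd i j F w * rd i j F w ∂(sm k) := by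
    rw [Finset.mul_sum, ← Finset.sum_sub_distrib, ← Finset.sum_add_distrib]
    refine Finset.sum_congr rfl fun i _ => ?_
    rw [Finset.mul_sum, ← Finset.sum_sub_distrib, ← Finset.sum_add_distrib]
    refine Finset.sum_congr rfl fun j _ => ?_
    have i1 := sm_mul (cf i j) (cf i j)
    have i2 := sm_mul (cf i j) (cF i j)
    have i3 := sm_mul (cF i j) (cF i j)
    have a1 : ∀ w : S k, (rd i j f w - rd i j F w) ^ 2 =
        rd i j f w * rd i j f w - 2 * (rd i j f w * rd i j F w) + rd i j F w * rd i j F w :=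
      fun w => by ring
    simp only [a1]
    have i12 : Integrable (fun w : S k => rd i j f w * rd i j f w -
        2 * (rd i j f w * rd i j F w)) (sm k) := i1.sub (i2.const_mul 2)
    rw [integral_add i12 i3, integral_sub i1 (i2.const_mul 2), integral_const_mul]
  rw [t4, t1, t2', t3'] at t0
  linarith

end Pool.Agent.W2helper90.RT
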