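import Pool.Agent.W2helper90.RT.Stm
import Pool.Agent.N537.RS.HSh

/-!
# Project RT, piece CAS: the Casimir identity (by helper 43; copy without abbreviations)
-/

set_option autoImplicit false

open MeasureTheory MvPolynomial Pool.Agent.N537.RS Pool.Agent.N537.RS.HS

namespace Pool.Agent.W2helper90.RT

namespace CAS

variable {k : ℕ}

/-- the rotation vector field on polynomials -/
noncomputable def DD (i j : Fin k) (q : MvPolynomial (Fin k) ℝ) : MvPolynomial (Fin k) ℝ :=
  MvPolynomial.X i * pderiv j q - MvPolynomial.X j * pderiv i q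

theorem evl_X (i : Fin k) (x : E k) : evl (MvPolynomial.X i) x = x i := by
  simp [evl]

theorem rd_evl (q : MvPolynomial (Fin k) ℝ) (i j : Fin k) : rd i j (evl q) = evl (DD i j q) := by
  funext x
  have h1 : evl (DD i j q) x = x i * evl (pderiv j q) x - x j * evl (pderiv i q) x := by
    simp [DD, evl]
  unfold rd
  rw [map_sub, map_smul, map_smul, evl_single, evl_single, h1, smul_eq_mul, smul_eq_mul]

theorem pderiv_comm' (i j : Fin k) (F : MvPolynomial (Fin k) ℝ) :
    pderiv i (pderiv j F) = pderiv j (pderiv i F) := by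
  ext m
  simp only [coeff_pderiv]
  by_cases h : i = j
  · subst h; rfl
  · have h1 : (m + Finsupp.single i 1 : Fin k →₀ ℕ) j = m j := by
      simp [h]
    have h2 : (m + Finsupp.single j 1 : Fin k →₀ ℕ) i = m i := by
      simp [Ne.symm h]
    rw [h1, h2, add_right_comm]; ring

theorem casimir {l : ℕ} {p : MvPolynomial (Fin k) ℝ} (hp : p.IsHomogeneous l)
    (hL : ∑ i, pderiv i (pderiv i p) = 0) :
    ∑ i, ∑ j, DD i j (DD i j p) = C (-(2 * ((l : ℝ) * (l + k - 2)))) * p := by
  have hE : ∑ i, MvPolynomial.X i * pderiv i p = C (l : ℝ) * p := by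
    rw [hp.sum_X_mul_pderiv, nsmul_eq_mul]
    simp
  have hE2 : ∑ i, ∑ j, MvPolynomial.X i * (MvPolynomial.X j * pderiv i (pderiv j p)) = C ((l : ℝ) * (l - 1)) * p := by
    rw [Finset.sum_comm]
    have h1 : ∀ j : Fin k, ∑ i, MvPolynomial.X i * (MvPolynomial.X j * pderiv i (pderiv j p)) =
        C ((l : ℝ) - 1) * (MvPolynomial.X j * pderiv j p) := by
      intro j
      rcases Nat.eq_zero_or_pos l with h0 | h0
      · subst h0
        obtain ⟨c, rfl⟩ : ∃ c, p = C c := ⟨_, (totalDegree_eq_zero_iff_eq_C.1
          (Nat.le_zero.1 hp.totalDegree_le))⟩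
        simp
      · have h2 : (pderiv j p).IsHomogeneous (l - 1) := hp.pderiv
        have h3 := h2.sum_X_mul_pderiv
        rw [nsmul_eq_mul] at h3
        have h4 : ((l - 1 : ℕ) : MvPolynomial (Fin k) ℝ) = C ((l : ℝ) - 1) := by
          rw [Nat.cast_sub h0]
          simp
        rw [h4] at h3
        calc ∑ i, MvPolynomial.X i * (MvPolynomial.X j * pderiv i (pderiv j p)) =
            MvPolynomial.X j * ∑ i, MvPolynomial.X i * pderiv i (pderiv j p) := by
              rw [Finset.mul_sum]
              exact Finset.sum_congr rfl fun i _ => by ring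
          _ = _ := by rw [h3]; ring
    rw [Finset.sum_congr rfl fun j _ => h1 j, ← Finset.mul_sum, hE, ← mul_assoc, ← C_mul]
    congr 2
    ring
  have hcomm : ∀ i j : Fin k, pderiv i (pderiv j p) = pderiv j (pderiv i p) :=
    fun i j => pderiv_comm' i j p
  have hone : ∀ i j : Fin k, DD i j (DD i j p) =
      (MvPolynomial.X i ^ 2 * pderiv j (pderiv j p) + MvPolynomial.X j ^ 2 * pderiv i (pderiv i p)) -
        MvPolynomial.X i * (MvPolynomial.X j * pderiv i (pderiv j p)) - MvPolynomial.X i * (MvPolynomial.X j * pderiv i (pderiv j p)) -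
        MvPolynomial.X i * pderiv i p - MvPolynomial.X j * pderiv j p +
        (if i = j then (MvPolynomial.X i * pderiv i p + MvPolynomial.X i * pderiv i p) else 0) := by
    intro i j
    have e1 : pderiv i (DD i j p) = pderiv j p + MvPolynomial.X i * pderiv i (pderiv j p) -
        ((if i = j then pderiv i p else 0) + MvPolynomial.X j * pderiv i (pderiv i p)) := by
      unfold DD
      rw [map_sub, pderiv_mul, pderiv_mul, pderiv_X_self, pderiv_X]
      by_cases h : i = j
      · subst h
        simp
      · rw [if_neg h, Pi.single_eq_of_ne (fun h' => h h'.symm)]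
        ring
    have e2 : pderiv j (DD i j p) = (if i = j then pderiv i p else 0) +
        MvPolynomial.X i * pderiv j (pderiv j p) - (pderiv i p + MvPolynomial.X j * pderiv i (pderiv j p)) := by
      unfold DD
      rw [map_sub, pderiv_mul, pderiv_mul, pderiv_X_self, pderiv_X, hcomm j i]
      by_cases h : i = j
      · subst h
        simp
      · rw [if_neg h, Pi.single_eq_of_ne h]
        ring
    conv_lhs => unfold DD
    rw [show MvPolynomial.X i * pderiv j p - MvPolynomial.X j * pderiv i p = DD i j p from rfl, e1, e2]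
    by_cases h : i = j
    · subst h
      simp only [if_true]
      ring
    · simp only [if_neg h]
      ring
  have hs1 : ∑ i : Fin k, ∑ j : Fin k, MvPolynomial.X i ^ 2 * pderiv j (pderiv j p) = 0 := by
    refine Finset.sum_eq_zero fun i _ => ?_
    rw [← Finset.mul_sum, hL, mul_zero]
  have hs2 : ∑ i : Fin k, ∑ j : Fin k, MvPolynomial.X j ^ 2 * pderiv i (pderiv i p) = 0 := by
    rw [Finset.sum_comm]
    exact hs1
  have hs3 : ∑ i : Fin k, ∑ _j : Fin k, MvPolynomial.X i * pderiv i p = C ((k : ℝ) * l) * p := by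
    rw [Finset.sum_comm, Finset.sum_const, Finset.card_univ, Fintype.card_fin, hE, nsmul_eq_mul,
      C_mul, mul_assoc]
    simp
  have hs4 : ∑ _i : Fin k, ∑ j : Fin k, MvPolynomial.X j * pderiv j p = C ((k : ℝ) * l) * p := by
    rw [Finset.sum_comm]
    exact hs3
  have hs5 : ∑ i : Fin k, ∑ j : Fin k,
      (if i = j then (MvPolynomial.X i * pderiv i p + MvPolynomial.X i * pderiv i p) else 0) = C (2 * (l : ℝ)) * p := by
    simp only [Finset.sum_ite_eq, Finset.mem_univ, if_true, Finset.sum_add_distrib, hE]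
    rw [← add_mul, ← C_add]
    congr 2
    ring
  simp only [hone, Finset.sum_add_distrib, Finset.sum_sub_distrib, hs1, hs2, hs3, hs4, hs5, hE2]
  have : (C (-(2 * ((l : ℝ) * (l + k - 2)))) : MvPolynomial (Fin k) ℝ) =
      0 + 0 - C ((l : ℝ) * (l - 1)) - C ((l : ℝ) * (l - 1)) - C ((k : ℝ) * l) - C ((k : ℝ) * l) +
        C (2 * (l : ℝ)) := by
    rw [zero_add, zero_sub, ← C_neg, ← C_sub, ← C_sub, ← C_sub, ← C_add]
    congr 1
    ring
  rw [this]
  ring

end CAS

open CAS in
theorem t_CAS : S_CAS := by
  intro k l _ p hp x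
  have hp1 : p.IsHomogeneous l := (mem_homogeneousSubmodule l p).1 hp.1
  have hp2 : ∑ i, pderiv i (pderiv i p) = 0 := by
    rw [← Lap_apply]
    exact LinearMap.mem_ker.1 hp.2
  have h1 : ∀ i j : Fin k, rd i j (rd i j fun x => MvPolynomial.eval (fun i => x i) p) x =
      evl (DD i j (DD i j p)) x := by
    intro i j
    have : (fun x : E k => MvPolynomial.eval (fun i => x i) p) = evl p := rfl
    rw [this, rd_evl, rd_evl]
  simp only [h1]
  have h2 := congrArg (fun q => evl q x) (casimir hp1 hp2)
  simp only [evl_sum, evl_mul] at h2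
  rw [h2]
  simp [evl]

end Pool.Agent.W2helper90.RT
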