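import Pool.Agent.W2helper90.RT.Stm
import Pool.Agent.Helper717.LT.P_T_all

set_option autoImplicit false

/-! # Piece WT: the weighted semiclassical inequality -/

open MeasureTheory Set Filter Topology Real
open scoped Matrix

namespace Pool.Agent.W2helper90.RT

open LTd

theorem bco_scale {h g a θ : ℝ} (hh : 0 ≤ h) (hg : 1 < g) (ha : 0 < a) (hθ : 0 < θ) :
    θ * bco h g (a / θ) = θ ^ (h / (g + h - 1)) * bco h g a := by
  have hJ : 0 < JJ h g := by
    unfold JJ cc
    have h1 : 0 < g - 1 := by linarith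
    have h2 : 0 < g + h - 1 := by linarith
    have h3 : 0 < Gamma (g + 1 + h) := Real.Gamma_pos_of_pos (by linarith)
    have h4 : 0 < Gamma (g + 1) := Real.Gamma_pos_of_pos (by linarith)
    positivity
  have hp : 0 < g + h - 1 := by linarith
  unfold bco
  rw [Real.div_rpow ha.le hθ.le, ← mul_div_assoc, Real.div_rpow (by positivity) (by positivity),
    ← Real.rpow_mul hθ.le]
  rw [mul_div_assoc', mul_comm (θ ^ (h / (g + h - 1))), mul_comm θ, mul_div_assoc]
  congr 1
  nth_rewrite 1 [← Real.rpow_one θ]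
  rw [← Real.rpow_sub hθ]
  congr 1
  field_simp
  ring

theorem t_WT : S_WT := by
  intro m g a hg ha n w l hw hc hgram
  have hT : Tm m (g + 1 / 2) := T_all m (g + 1 / 2) (by linarith)
  have hwc : ∀ i, Continuous (w i) := fun i => (hw i).continuous
  have hm0 : (0 : ℝ) ≤ (m : ℝ) := Nat.cast_nonneg m
  have hsys := slice_sys w hw hc
  have hcw2 : ∀ i j, HasCompactSupport (fun z => w i z * w j z) := fun i j =>
    (hc i).mul_right (f' := w j)
  have hTot : Tot (RS w) = Matrix.diagonal l := by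
    ext i j
    have h1 : ∫ z, w i z * w j z = ∫ x : ℝ, ∫ y : Fin m → ℝ,
        w i (Fin.cons x y : Fin (m + 1) → ℝ) * w j (Fin.cons x y : Fin (m + 1) → ℝ) :=
      slice_int (f := fun z => w i z * w j z) ((hwc i).mul (hwc j)) (hcw2 i j)
    rw [hgram i j] at h1
    rw [Matrix.diagonal_apply]
    exact h1.symm
  obtain ⟨G, hGc, hGs, hG1, hG2⟩ := blockC hsys l hTot hg ha
  have ha' : 0 < bco (1 / 2) g a := bco_pos (by norm_num) (by linarith) ha
  have hpd : ∀ (k : Fin (m + 1)) (i : Fin n), Continuous (pd k (w i)) ∧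
      HasCompactSupport (pd k (w i)) := fun k i => pd_basic (hw i) (hc i) k
  have hsqc : ∀ (k : Fin (m + 1)) (i : Fin n), Continuous (fun z => pd k (w i) z ^ 2) :=
    fun k i => (hpd k i).1.pow 2
  have hsqs : ∀ (k : Fin (m + 1)) (i : Fin n), HasCompactSupport (fun z => pd k (w i) z ^ 2) :=
    fun k i => (hpd k i).2.comp_left (g := fun t : ℝ => t ^ 2) (by norm_num)
  have hsqi : ∀ (k : Fin (m + 1)) (i : Fin n), Integrable (fun z => pd k (w i) z ^ 2) :=
    fun k i => (hsqc k i).integrable_of_hasCompactSupport (hsqs k i)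
  -- the exponent
  have hpp : 0 < pp (g + 1 / 2 + m / 2) := by
    unfold pp
    apply div_pos <;> linarith
  have hexp : g + 1 / 2 + (m : ℝ) / 2 = g + ((m + 1 : ℕ) : ℝ) / 2 := by
    push_cast
    ring
  set s : ℝ := (m : ℝ) / (g + ((m + 1 : ℕ) : ℝ) / 2 - 1) with hs
  -- the density
  have hρc : Continuous (fun z : X m => Real.exp (s * z 0) *
      (∑ i, w i z ^ 2) ^ pp (g + 1 / 2 + m / 2)) :=
    (Real.continuous_exp.comp (continuous_const.mul (continuous_apply 0))).mul
      ((continuous_finsetSum _ fun i _ => (hwc i).pow 2).rpow_const (fun _ => Or.inr hpp.le))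
  have hρs : HasCompactSupport (fun z : X m => Real.exp (s * z 0) *
      (∑ i, w i z ^ 2) ^ pp (g + 1 / 2 + m / 2)) := by
    refine HasCompactSupport.intro (isCompact_iUnion (fun i => hc i)) (fun z hz => ?_)
    have h0 : ∀ i, w i z = 0 := fun i =>
      image_eq_zero_of_notMem_tsupport (fun h => hz (Set.mem_iUnion.2 ⟨i, h⟩))
    have h00 : ∑ i, w i z ^ 2 = 0 := by simp [h0]
    show Real.exp (s * z 0) * (∑ i, w i z ^ 2) ^ pp (g + 1 / 2 + m / 2) = 0
    rw [h00, Real.zero_rpow hpp.ne', mul_zero]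
  -- the gradient part
  have hDc : Continuous (fun z : X m => Real.exp (2 * z 0) *
      ∑ k : Fin m, ∑ i, pd k.succ (w i) z ^ 2) :=
    (Real.continuous_exp.comp (continuous_const.mul (continuous_apply 0))).mul
      (continuous_finsetSum _ fun k _ => continuous_finsetSum _ fun i _ => hsqc k.succ i)
  have hDs : HasCompactSupport (fun z : X m => Real.exp (2 * z 0) *
      ∑ k : Fin m, ∑ i, pd k.succ (w i) z ^ 2) := by
    refine HasCompactSupport.intro (isCompact_iUnion (fun k : Fin m =>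
      isCompact_iUnion (fun i : Fin n => (hsqs k.succ i)))) (fun z hz => ?_)
    have h0 : ∀ (k : Fin m) (i : Fin n), pd k.succ (w i) z ^ 2 = 0 := fun k i =>
      image_eq_zero_of_notMem_tsupport (f := fun z => pd k.succ (w i) z ^ 2)
        (fun h => hz (Set.mem_iUnion.2 ⟨k, Set.mem_iUnion.2 ⟨i, h⟩⟩))
    simp only [h0]
    simp
  -- pointwise inequality
  have hpoint : ∀ x : ℝ, bco (((m + 1 : ℕ) : ℝ) / 2) g a *
      (∫ y : Fin m → ℝ, Real.exp (s * (Fin.cons x y : Fin (m + 1) → ℝ) 0) *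
        (∑ i, w i (Fin.cons x y : Fin (m + 1) → ℝ) ^ 2) ^ pp (g + 1 / 2 + m / 2)) ≤
      (∫ y : Fin m → ℝ, Real.exp (2 * (Fin.cons x y : Fin (m + 1) → ℝ) 0) *
        ∑ k : Fin m, ∑ i, pd k.succ (w i) (Fin.cons x y : Fin (m + 1) → ℝ) ^ 2) +
        G x := by
    intro x
    obtain ⟨V, r, hV, hV', hr, hR⟩ := specP (sys_psd hsys x)
    have hθ : 0 < Real.exp (2 * x) := Real.exp_pos _
    have h1 := T_slice (div_pos ha' hθ) hT
      (fun i (y : Fin m → ℝ) => w i (Fin.cons x y : Fin (m + 1) → ℝ))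
      (fun i => (slice_pd (hw i) x).1) (fun i => (slice_cont (hwc i) (hc i)).2.2.1 x) V r hV hV' hR
    have h2 := hG1 x V r hV hV' hr hR
    have h3 : ∀ (k : Fin m) (i : Fin n) (y : Fin m → ℝ),
        pd k (fun y : Fin m → ℝ => w i (Fin.cons x y : Fin (m + 1) → ℝ)) y =
          pd k.succ (w i) (Fin.cons x y : Fin (m + 1) → ℝ) := fun k i y =>
      (slice_pd (hw i) x).2 k y
    simp only [h3] at h1
    have h4 := mul_le_mul_of_nonneg_left h1 hθ.le
    have h5 : Real.exp (2 * x) * (bco (m / 2) (g + 1 / 2) (bco (1 / 2) g a / Real.exp (2 * x)) *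
        ∫ y : Fin m → ℝ, (∑ i, w i (Fin.cons x y : Fin (m + 1) → ℝ) ^ 2) ^
          pp (g + 1 / 2 + m / 2)) =
        bco (((m + 1 : ℕ) : ℝ) / 2) g a * (Real.exp (s * x) *
          ∫ y : Fin m → ℝ, (∑ i, w i (Fin.cons x y : Fin (m + 1) → ℝ) ^ 2) ^
          pp (g + 1 / 2 + m / 2)) := by
      rw [← mul_assoc, bco_scale (by positivity) (by linarith) ha' hθ, bco_succ m hg ha]
      have h6 : Real.exp (2 * x) ^ ((m : ℝ) / 2 / (g + 1 / 2 + m / 2 - 1)) = Real.exp (s * x) := by
        rw [← Real.exp_mul, hs, ← hexp]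
        congr 1
        ring
      rw [h6]
      ring
    rw [h5, mul_add] at h4
    have h7 : Real.exp (2 * x) * (bco (1 / 2) g a / Real.exp (2 * x) *
        ∑ i, r i ^ pp (g + 1 / 2)) = bco (1 / 2) g a * ∑ i, r i ^ pp (g + 1 / 2) := by
      field_simp
    rw [h7] at h4
    simp only [Fin.cons_zero]
    rw [integral_const_mul, integral_const_mul]
    linarith
  -- integrate
  have hint := integral_mono
    ((ts_slice_integrable hρc hρs).const_mul (bco (((m + 1 : ℕ) : ℝ) / 2) g a))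
    ((ts_slice_integrable hDc hDs).add (hGc.integrable_of_hasCompactSupport hGs)) hpoint
  rw [integral_const_mul, ← slice_int hρc hρs] at hint
  have hadd : ∫ x : ℝ, ((fun x : ℝ => ∫ y : Fin m → ℝ,
      Real.exp (2 * (Fin.cons x y : Fin (m + 1) → ℝ) 0) *
      ∑ k : Fin m, ∑ i, pd k.succ (w i) (Fin.cons x y : Fin (m + 1) → ℝ) ^ 2) + G) x =
      (∫ z : X m, Real.exp (2 * z 0) * ∑ k : Fin m, ∑ i, pd k.succ (w i) z ^ 2) + ∫ x, G x := by
    rw [slice_int hDc hDs]
    exact integral_add (ts_slice_integrable hDc hDs) (hGc.integrable_of_hasCompactSupport hGs)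
  have htr : ∫ x, (QS w x).trace = ∫ z, ∑ i, pd 0 (w i) z ^ 2 := by
    rw [integral_finsetSum _ (fun i _ => hsqi 0 i)]
    have h4 : ∀ x, (QS w x).trace = ∑ i, ∫ y : Fin m → ℝ,
        pd 0 (w i) (Fin.cons x y : Fin (m + 1) → ℝ) ^ 2 := by
      intro x
      unfold Matrix.trace
      refine Finset.sum_congr rfl fun i _ => ?_
      simp only [QS, Matrix.diag_apply, Matrix.of_apply, ← sq]
    simp_rw [h4]
    rw [integral_finsetSum _ (fun i _ => ts_slice_integrable (hsqc 0 i) (hsqs 0 i))]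
    refine Finset.sum_congr rfl fun i _ => ?_
    exact (slice_int (hsqc 0 i) (hsqs 0 i)).symm
  rw [htr] at hG2
  rw [← hexp]
  have hint' := hint.trans (le_of_eq hadd)
  linarith

end Pool.Agent.W2helper90.RT
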