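import Pool.Agent.W2helper90.RT.Bil
import Pool.Agent.W2helper90.RT.WT
import Pool.Agent.N537.RS.LA

set_option autoImplicit false

/-! # Piece EIG: the dual form -/

open MeasureTheory Set Filter Topology Real
open scoped Matrix

namespace Pool.Agent.W2helper90.RT

open LTd

theorem cc_pos' {g : ℝ} (hg : 1 < g) : 0 < cc g :=
  div_pos (Real.rpow_pos_of_pos (by linarith) _) (Real.rpow_pos_of_pos (by linarith) _)

theorem leg1 {g x : ℝ} (hg : 1 < g) (hx : 0 ≤ x) :
    (x / pp g) ^ (g - 1) * x - ((x / pp g) ^ (g - 1)) ^ pp g = cc g * x ^ g := by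
  have h1 : 0 < g - 1 := by linarith
  have h0 : 0 < g := by linarith
  have hp : 0 < pp g := div_pos h0 h1
  rcases hx.eq_or_lt with rfl | hx
  · rw [zero_div, Real.zero_rpow h1.ne', Real.zero_rpow hp.ne', Real.zero_rpow h0.ne']
    ring
  have hxp : 0 < x / pp g := div_pos hx hp
  rw [← Real.rpow_mul hxp.le]
  have e1 : (g - 1) * pp g = g := by
    unfold pp
    field_simp
  rw [e1]
  have e2 : (x / pp g) ^ (g - 1) * x = pp g * (x / pp g) ^ g := by
    have : (x / pp g) ^ g = (x / pp g) ^ (g - 1) * (x / pp g) := by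
      rw [← Real.rpow_add_one hxp.ne']
      congr 1
      ring
    rw [this]
    field_simp
  rw [e2]
  have e3 : (x / pp g) ^ g = x ^ g * ((g - 1) ^ g / g ^ g) := by
    unfold pp
    rw [div_div_eq_mul_div, Real.div_rpow (by positivity) h0.le, Real.mul_rpow hx.le h1.le]
    ring
  have e4 : (g - 1) ^ g = (g - 1) ^ (g - 1) * (g - 1) := by
    rw [← Real.rpow_add_one h1.ne']
    congr 1
    ring
  rw [e3, e4]
  unfold cc pp
  field_simp
  ring

theorem leg2 {G b W ρ : ℝ} (hG : 1 < G) (hb : 0 < b) (hρ : 0 ≤ ρ) :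
    W * ρ - b * ρ ^ pp G ≤ cc G * b ^ (1 - G) * (max W 0) ^ G := by
  have h1 : 0 < G - 1 := by linarith
  have h0 : 0 < G := by linarith
  have hp : 0 < pp G := div_pos h0 h1
  have hc : (pp G).HolderConjugate G := by
    rw [Real.holderConjugate_iff]
    refine ⟨?_, ?_⟩
    · unfold pp
      rw [lt_div_iff₀ h1]
      linarith
    · unfold pp
      field_simp
      ring
  have hbp : 0 < b * pp G := mul_pos hb hp
  set s := (b * pp G) ^ (1 / pp G) with hs
  have hs0 : 0 < s := Real.rpow_pos_of_pos hbp _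
  have hy := Real.young_inequality_of_nonneg (a := ρ * s) (b := max W 0 / s) (by positivity)
    (div_nonneg (le_max_right _ _) hs0.le) hc
  have e1 : ρ * s * (max W 0 / s) = max W 0 * ρ := by field_simp
  have e2 : (ρ * s) ^ pp G / pp G = b * ρ ^ pp G := by
    rw [Real.mul_rpow hρ hs0.le, hs, ← Real.rpow_mul hbp.le, one_div_mul_cancel hp.ne',
      Real.rpow_one]
    field_simp
  have e3 : (max W 0 / s) ^ G / G = cc G * b ^ (1 - G) * (max W 0) ^ G := by
    rw [Real.div_rpow (le_max_right _ _) hs0.le, hs, ← Real.rpow_mul hbp.le]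
    have e4 : 1 / pp G * G = G - 1 := by
      unfold pp
      field_simp
    rw [e4, Real.mul_rpow hb.le hp.le]
    have e5 : pp G ^ (G - 1) = G ^ (G - 1) / (G - 1) ^ (G - 1) := by
      unfold pp
      rw [Real.div_rpow h0.le h1.le]
    have e6 : b ^ (1 - G) = (b ^ (G - 1))⁻¹ := by
      rw [← Real.rpow_neg hb.le]
      congr 1
      ring
    have e7 : G ^ G = G ^ (G - 1) * G := by
      rw [← Real.rpow_add_one h0.ne']
      congr 1
      ring
    rw [e5, e6]
    unfold cc
    rw [e7]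
    have p1 : 0 < (G - 1) ^ (G - 1) := Real.rpow_pos_of_pos h1 _
    have p2 : 0 < G ^ (G - 1) := Real.rpow_pos_of_pos h0 _
    have p3 : 0 < b ^ (G - 1) := Real.rpow_pos_of_pos hb _
    field_simp
  rw [e1, e2, e3] at hy
  have h2 : W * ρ ≤ max W 0 * ρ := mul_le_mul_of_nonneg_right (le_max_left _ _) hρ
  linarith

theorem const_eig (k m : ℕ) (hk : 4 ≤ k) :
    cc (((k : ℝ) + m) / 2) * (bco (((m + 1 : ℕ) : ℝ) / 2) (((k : ℝ) - 1) / 2) 1) ^
      (1 - ((k : ℝ) + m) / 2) = cc (((k : ℝ) - 1) / 2) * Lc k m := by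
  have hk' : (4 : ℝ) ≤ k := by exact_mod_cast hk
  have hm : (0 : ℝ) ≤ m := Nat.cast_nonneg m
  set g : ℝ := ((k : ℝ) - 1) / 2 with hg
  set h : ℝ := ((m + 1 : ℕ) : ℝ) / 2 with hh
  have hg1 : 1 < g := by rw [hg]; linarith
  have hh0 : 0 ≤ h := by rw [hh]; positivity
  have eG : ((k : ℝ) + m) / 2 = g + h := by rw [hg, hh]; push_cast; ring
  have hG : 0 < g + h - 1 := by linarith
  have c1 : 0 < cc (g + h) := cc_pos' (by linarith)
  have c2 : 0 < cc g := cc_pos' hg1
  have g1 : 0 < Gamma (g + 1 + h) := Real.Gamma_pos_of_pos (by linarith)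
  have g2 : 0 < Gamma (g + 1) := Real.Gamma_pos_of_pos (by linarith)
  have p4 : 0 < (4 * π) ^ h := Real.rpow_pos_of_pos (by positivity) _
  have hJ : 0 < JJ h g := by
    unfold JJ
    positivity
  rw [eG]
  unfold bco
  rw [Real.one_rpow, mul_one, ← Real.rpow_mul hJ.le]
  have e1 : 1 / (g + h - 1) * (1 - (g + h)) = -1 := by
    field_simp
    ring
  rw [e1, Real.rpow_neg_one]
  unfold JJ Lc
  have e2 : ((k : ℝ) + 1) / 2 = g + 1 := by rw [hg]; ring
  have e3 : ((m : ℝ) + 1) / 2 = h := by rw [hh]; push_cast; ring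
  rw [e2, e3, eG]
  have e4 : g + h + 1 = g + 1 + h := by ring
  rw [e4]
  field_simp

theorem ofReal_integral_le' {α : Type} [MeasurableSpace α] {μ : Measure α} {f : α → ℝ}
    (hf : Integrable f μ) : ENNReal.ofReal (∫ x, f x ∂μ) ≤ ∫⁻ x, ENNReal.ofReal (f x) ∂μ := by
  have h1 : Integrable (fun x => max (f x) 0) μ := hf.pos_part
  have h2 : ∫ x, f x ∂μ ≤ ∫ x, max (f x) 0 ∂μ := integral_mono hf h1 fun x => le_max_left _ _
  refine (ENNReal.ofReal_le_ofReal h2).trans ?_
  rw [ofReal_integral_eq_lintegral_ofReal h1 (ae_of_all _ fun x => le_max_right _ _)]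
  refine lintegral_mono fun x => ?_
  rcases le_total (f x) 0 with h | h
  · simp [max_eq_right h]
  · simp [max_eq_left h]

/-- the kinetic energy of a family -/
theorem kin_total {m n : ℕ} (w : Fin n → X m → ℝ) (hw : ∀ i, C1 (w i)) :
    (∫ x, ∑ i, pd 0 (w i) x ^ 2) +
      (∫ x : X m, Real.exp (2 * x 0) * ∑ k : Fin m, ∑ i, pd k.succ (w i) x ^ 2) =
      ∑ i, kin (w i) (w i) := by
  have c2 : Continuous (fun x : X m => Real.exp (2 * x 0) *
      ∑ k : Fin m, ∑ i, pd k.succ (w i) x ^ 2) :=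
    (exp_cont 2).mul (continuous_finsetSum _ fun k _ => continuous_finsetSum _ fun i _ =>
      ((hw i).pdc k.succ).1.pow 2)
  have c1 : Continuous (fun x : X m => ∑ i, pd 0 (w i) x ^ 2) :=
    continuous_finsetSum _ fun i _ => ((hw i).pdc 0).1.pow 2
  have hz : ∀ x ∉ ⋃ p : Fin (m + 1) × Fin n, tsupport (pd p.1 (w p.2)), ∀ k i, pd k (w i) x = 0 :=
    fun x hx k i => image_eq_zero_of_notMem_tsupport fun h => hx (Set.mem_iUnion.2 ⟨(k, i), h⟩)
  have hK : IsCompact (⋃ p : Fin (m + 1) × Fin n, tsupport (pd p.1 (w p.2))) :=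
    isCompact_iUnion fun p => ((hw p.2).pdc p.1).2
  have i1 : Integrable (fun x : X m => ∑ i, pd 0 (w i) x ^ 2) := by
    refine c1.integrable_of_hasCompactSupport (HasCompactSupport.intro hK fun x hx => ?_)
    simp [hz x hx]
  have i2 : Integrable (fun x : X m => Real.exp (2 * x 0) *
      ∑ k : Fin m, ∑ i, pd k.succ (w i) x ^ 2) := by
    refine c2.integrable_of_hasCompactSupport (HasCompactSupport.intro hK fun x hx => ?_)
    simp [hz x hx]
  rw [← integral_add i1 i2]
  simp only [kin_eq]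
  rw [← integral_finsetSum _ fun i _ => kf_int (hw i) (hw i)]
  refine integral_congr_ae (ae_of_all _ fun x => ?_)
  simp only [kf, Finset.sum_add_distrib, ← sq, ← Finset.mul_sum]
  congr 2
  rw [Finset.sum_comm]

theorem t_EIG (hWT : S_WT) : S_EIG := by
  intro k m hk n ψ hψ W hWm hWb Q hQ hQij
  have hk' : (4 : ℝ) ≤ k := by exact_mod_cast hk
  have hm : (0 : ℝ) ≤ m := Nat.cast_nonneg m
  set g : ℝ := ((k : ℝ) - 1) / 2 with hg
  have hg1 : 1 < g := by rw [hg]; linarith
  have hg0 : 0 < g := by linarith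
  have hg32 : 3 / 2 ≤ g := by rw [hg]; linarith
  set G : ℝ := ((k : ℝ) + m) / 2 with hG
  have hG1 : 1 < G := by rw [hG]; linarith
  have hG0 : 0 < G := by linarith
  have eG : g + ((m + 1 : ℕ) : ℝ) / 2 = G := by rw [hg, hG]; push_cast; ring
  have hpg : 0 < pp g := div_pos hg0 (by linarith)
  set e : Fin n → ℝ := hQ.eigenvalues with he
  set u : Fin n → Fin n → ℝ := fun i j => hQ.eigenvectorBasis i j with hu
  have huo : ∀ i i', ∑ j, u i j * u i' j = if i = i' then (1 : ℝ) else 0 := by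
    intro i i'
    have h1 := orthonormal_iff_ite.1 hQ.eigenvectorBasis.orthonormal i i'
    rw [PiLp.inner_apply] at h1
    rw [← h1]
    refine Finset.sum_congr rfl fun j _ => ?_
    simp [hu, mul_comm]
  have hue : ∀ i, ∑ j, ∑ j', (u i j * u i j') * Q j j' = e i := by
    intro i
    have h1 := hQ.mulVec_eigenvectorBasis i
    have h2 : ∀ j, ∑ j', Q j j' * u i j' = e i * u i j := fun j => congrFun h1 j
    have h3 : ∀ j, ∑ j', (u i j * u i j') * Q j j' = u i j * (e i * u i j) := by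
      intro j
      rw [← h2 j, Finset.mul_sum]
      exact Finset.sum_congr rfl fun j' _ => by ring
    rw [Finset.sum_congr rfl fun j _ => h3 j]
    have h4 : ∀ j, u i j * (e i * u i j) = e i * (u i j * u i j) := fun j => by ring
    rw [Finset.sum_congr rfl fun j _ => h4 j, ← Finset.mul_sum, huo, if_pos rfl, mul_one]
  have hc1 : ∀ i, C1 (ψ i) := hψ.c1
  -- the eigenfunctions
  set φ : Fin n → X m → ℝ := fun i x => ∑ j, u i j * ψ j x with hφ
  have hφ1 : ∀ i, C1 (φ i) := fun i => C1.sum Finset.univ hc1 (u i)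
  have hφo : ∀ i i', ∫ x, φ i x * φ i' x = if i = i' then (1 : ℝ) else 0 := by
    intro i i'
    rw [← huo i i']
    exact hψ.L_sum (u i) (u i')
  have hφe : ∀ i, kin (φ i) (φ i) - ∫ x, W x * (φ i x * φ i x) = e i := by
    intro i
    rw [← hue i]
    have h1 := kin_sum ψ hc1 (u i) (u i)
    have h2 := W_sum hWm hWb ψ hc1 (u i) (u i)
    rw [hφ]
    simp only
    rw [h1, h2, ← Finset.sum_sub_distrib]
    refine Finset.sum_congr rfl fun j _ => ?_
    rw [← Finset.sum_sub_distrib]
    refine Finset.sum_congr rfl fun j' _ => ?_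
    rw [hQij]
    ring
  -- the weights
  set x : Fin n → ℝ := fun i => max (-e i) 0 with hx
  have hx0 : ∀ i, 0 ≤ x i := fun i => le_max_right _ _
  set ν : Fin n → ℝ := fun i => (x i / pp g) ^ (g - 1) with hν
  have hν0 : ∀ i, 0 ≤ ν i := fun i => Real.rpow_nonneg (div_nonneg (hx0 i) hpg.le) _
  have hνx : ∀ i, ν i * x i = ν i * (-e i) := by
    intro i
    rcases le_or_gt 0 (e i) with h | h
    · have h1 : x i = 0 := max_eq_right (by linarith)
      have h2 : ν i = 0 := by
        rw [hν]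
        simp only
        rw [h1, zero_div, Real.zero_rpow (by linarith)]
      rw [h2, zero_mul, zero_mul]
    · have h1 : x i = -e i := max_eq_left (by linarith)
      rw [h1]
  set w : Fin n → X m → ℝ := fun i y => √(ν i) * φ i y with hw
  have hw1 : ∀ i, C1 (w i) := by
    intro i
    exact ⟨contDiff_const.mul (hφ1 i).smooth, (hφ1 i).supp.mul_left⟩
  have hsq : ∀ i, √(ν i) * √(ν i) = ν i := fun i => Real.mul_self_sqrt (hν0 i)
  have hwo : ∀ i i', ∫ y, w i y * w i' y = if i = i' then ν i else 0 := by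
    intro i i'
    have h1 : ∀ y, w i y * w i' y = (√(ν i) * √(ν i')) * (φ i y * φ i' y) := fun y => by
      simp only [hw]; ring
    simp only [h1]
    rw [integral_const_mul, hφo]
    by_cases h : i = i'
    · subst h
      rw [if_pos rfl, if_pos rfl, mul_one, hsq]
    · rw [if_neg h, if_neg h, mul_zero]
  have hwk : ∀ i, kin (w i) (w i) = ν i * kin (φ i) (φ i) := by
    intro i
    have h1 := kin_sum (fun _ : Fin 1 => φ i) (fun _ => hφ1 i) (fun _ => √(ν i)) (fun _ => √(ν i))
    simp only [Finset.univ_unique, Finset.sum_singleton] at h1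
    rw [hsq] at h1
    exact h1
  have hkt := kin_total w hw1
  set ρ : X m → ℝ := fun y => ∑ i, w i y ^ 2 with hρ
  have hρ0 : ∀ y, 0 ≤ ρ y := fun y => Finset.sum_nonneg fun i _ => sq_nonneg _
  have hmain := hWT m g 1 hg32 one_pos n w ν (fun i => (hw1 i).smooth) (fun i => (hw1 i).supp) hwo
  rw [hkt, eG, one_mul] at hmain
  set B : ℝ := bco (((m + 1 : ℕ) : ℝ) / 2) g 1 with hB
  have hB0 : 0 < B := bco_pos (by positivity) hg1 one_pos
  set s : ℝ := (m : ℝ) / (G - 1) with hs
  have hWρ : Integrable (fun y => W y * ρ y) := by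
    have : (fun y => W y * ρ y) = fun y => ∑ i, W y * (w i y * w i y) := by
      funext y
      simp only [hρ, Finset.mul_sum, ← sq]
    rw [this]
    exact integrable_finsetSum _ fun i _ => W_int hWm hWb (hw1 i) (hw1 i)
  have hWρ2 : ∫ y, W y * ρ y = ∑ i, ν i * ∫ y, W y * (φ i y * φ i y) := by
    have h1 : ∀ y, W y * ρ y = ∑ i, ν i * (W y * (φ i y * φ i y)) := by
      intro y
      simp only [hρ, hw, Finset.mul_sum]
      refine Finset.sum_congr rfl fun i _ => ?_
      rw [mul_pow, Real.sq_sqrt (hν0 i)]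
      ring
    simp only [h1]
    rw [integral_finsetSum _ fun i _ => (W_int hWm hWb (hφ1 i) (hφ1 i)).const_mul _]
    exact Finset.sum_congr rfl fun i _ => integral_const_mul _ _
  have hppG : 0 < pp G := div_pos hG0 (by linarith)
  have hρP : Integrable (fun y : X m => Real.exp (s * y 0) * ρ y ^ pp G) := by
    have c1 : Continuous (fun y : X m => Real.exp (s * y 0) * ρ y ^ pp G) :=
      (exp_cont s).mul ((continuous_finsetSum _ fun i _ => (hw1 i).smooth.continuous.pow 2).rpow_const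
        fun _ => Or.inr hppG.le)
    refine c1.integrable_of_hasCompactSupport ?_
    refine HasCompactSupport.intro (isCompact_iUnion (fun i => (hw1 i).supp)) (fun z hz => ?_)
    have h0 : ∀ i, w i z = 0 := fun i =>
      image_eq_zero_of_notMem_tsupport (fun h => hz (Set.mem_iUnion.2 ⟨i, h⟩))
    have h00 : ρ z = 0 := by simp [hρ, h0]
    rw [h00, Real.zero_rpow hppG.ne', mul_zero]
  have hF : Integrable (fun y : X m => W y * ρ y - (B * Real.exp (s * y 0)) * ρ y ^ pp G) := by
    refine hWρ.sub ((hρP.const_mul B).congr (ae_of_all _ fun y => ?_))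
    simp only
    ring
  have hFi : ∫ y : X m, (W y * ρ y - (B * Real.exp (s * y 0)) * ρ y ^ pp G) =
      (∫ y, W y * ρ y) - B * ∫ y : X m, Real.exp (s * y 0) * ρ y ^ pp G := by
    rw [← integral_const_mul, ← integral_sub hWρ (hρP.const_mul B)]
    refine integral_congr_ae (ae_of_all _ fun y => ?_)
    simp only
    ring
  have h1 : cc g * ∑ i, x i ^ g ≤
      ∫ y : X m, (W y * ρ y - (B * Real.exp (s * y 0)) * ρ y ^ pp G) := by
    rw [hFi, hWρ2, Finset.mul_sum]
    have h2 : ∀ i, cc g * x i ^ g = ν i * (∫ y, W y * (φ i y * φ i y)) - kin (w i) (w i) -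
        ν i ^ pp g := by
      intro i
      rw [← leg1 hg1 (hx0 i)]
      show ν i * x i - ν i ^ pp g = _
      rw [hνx, ← hφe i, hwk]
      ring
    rw [Finset.sum_congr rfl fun i _ => h2 i]
    rw [Finset.sum_sub_distrib, Finset.sum_sub_distrib]
    linarith
  have h3 : ENNReal.ofReal (cc g * ∑ i, x i ^ g) ≤ ENNReal.ofReal (cc g * Lc k m) *
      ∫⁻ y : X m, ENNReal.ofReal (Real.exp (-((m : ℝ) * y 0)) * (max (W y) 0) ^ G) := by
    refine (ENNReal.ofReal_le_ofReal h1).trans ((ofReal_integral_le' hF).trans ?_)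
    have hcc := cc_pos' hg1
    have hLc : 0 ≤ Lc k m := by
      unfold Lc
      have a1 := Real.Gamma_pos_of_pos (s := ((k : ℝ) + 1) / 2) (by linarith)
      have a2 := Real.Gamma_pos_of_pos (s := ((k : ℝ) + m) / 2 + 1) (by linarith)
      have := Real.pi_pos
      positivity
    rw [← lintegral_const_mul' _ _ ENNReal.ofReal_ne_top]
    refine lintegral_mono fun y => ?_
    rw [← ENNReal.ofReal_mul (by positivity)]
    refine ENNReal.ofReal_le_ofReal ?_
    have hb : 0 < B * Real.exp (s * y 0) := mul_pos hB0 (Real.exp_pos _)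
    refine (leg2 (W := W y) hG1 hb (hρ0 y)).trans (le_of_eq ?_)
    rw [Real.mul_rpow hB0.le (Real.exp_pos _).le, ← Real.exp_mul]
    have e1 : s * y 0 * (1 - G) = -((m : ℝ) * y 0) := by
      rw [hs]
      have : G - 1 ≠ 0 := by linarith
      field_simp
      ring
    rw [e1, ← mul_assoc, const_eig k m hk]
    ring
  have hcc := cc_pos' hg1
  have h4 : ENNReal.ofReal (∑ i, x i ^ g) ≤ ENNReal.ofReal (Lc k m) *
      ∫⁻ y : X m, ENNReal.ofReal (Real.exp (-((m : ℝ) * y 0)) * (max (W y) 0) ^ G) := by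
    rw [ENNReal.ofReal_mul hcc.le, ENNReal.ofReal_mul hcc.le, mul_assoc] at h3
    exact (ENNReal.mul_le_mul_iff_right (by simpa using hcc) ENNReal.ofReal_ne_top).1 h3
  refine le_trans (le_of_eq ?_) h4
  rw [ENNReal.ofReal_sum_of_nonneg fun i _ => Real.rpow_nonneg (hx0 i) _]

end Pool.Agent.W2helper90.RT
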