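import Pool.Agent.W2helper90.RT.Bil

set_option autoImplicit false

/-! # Piece GSR: Gram-Schmidt orthogonalisation -/

open MeasureTheory Set Filter Topology Real

namespace Pool.Agent.W2helper90.RT

theorem gsr {m : ℕ} {ι : Type} [DecidableEq ι] (φ : ι → X m → ℝ) (hφ : ∀ i, C1 (φ i))
    (s : Finset ι) :
    ∃ (n : ℕ) (ψ : Fin n → X m → ℝ) (c : ι → Fin n → ℝ), ON ψ ∧
      ∀ i ∈ s, ∀ x, φ i x = ∑ j, c i j * ψ j x := by
  induction s using Finset.induction_on with
  | empty =>
    exact ⟨0, fun j => j.elim0, fun _ j => j.elim0,
      ⟨fun j => j.elim0, fun j => j.elim0, fun i => i.elim0⟩,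
      fun i hi => absurd hi (Finset.notMem_empty i)⟩
  | insert a s ha ih =>
    obtain ⟨n, ψ, c, hψ, hc⟩ := ih
    have hψ1 := hψ.c1
    set c0 : Fin n → ℝ := fun j => ∫ x, φ a x * ψ j x with hc0
    set r : X m → ℝ := fun x => φ a x - ∑ j, c0 j * ψ j x with hr
    have hS : C1 (fun x => ∑ j, c0 j * ψ j x) := C1.sum Finset.univ hψ1 c0
    have hr1 : C1 r := by
      refine ⟨(hφ a).smooth.sub hS.smooth, ?_⟩
      exact (hφ a).supp.sub hS.supp
    have horth : ∀ j, ∫ x, r x * ψ j x = 0 := by
      intro j
      have e1 : ∀ x, r x * ψ j x = φ a x * ψ j x - ∑ i, c0 i * (ψ i x * ψ j x) := by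
        intro x
        rw [hr]
        simp only
        rw [sub_mul, Finset.sum_mul]
        congr 1
        exact Finset.sum_congr rfl fun i _ => by ring
      simp only [e1]
      rw [integral_sub (L_int (hφ a) (hψ1 j))
        (integrable_finsetSum _ fun i _ => (L_int (hψ1 i) (hψ1 j)).const_mul _),
        integral_finsetSum _ fun i _ => (L_int (hψ1 i) (hψ1 j)).const_mul _]
      simp only [integral_const_mul, hψ.orth, mul_ite, mul_one, mul_zero, Finset.sum_ite_eq',
        Finset.mem_univ, if_true]
      exact sub_self _
    set N : ℝ := ∫ x, r x * r x with hN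
    have hN0 : 0 ≤ N := integral_nonneg fun x => mul_self_nonneg _
    rcases hN0.eq_or_lt with h0 | hpos
    · -- the remainder vanishes
      have hrz : ∀ x, r x = 0 := by
        by_contra hcon
        push Not at hcon
        obtain ⟨x0, hx0⟩ := hcon
        have := Continuous.integral_pos_of_hasCompactSupport_nonneg_nonzero (μ := volume)
          (f := fun x => r x * r x) (hr1.smooth.continuous.mul hr1.smooth.continuous)
          hr1.supp.mul_right (fun x => mul_self_nonneg _) (x := x0) (mul_ne_zero hx0 hx0)
        rw [← hN, ← h0] at this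
        exact lt_irrefl _ this
      refine ⟨n, ψ, fun i => if i = a then c0 else c i, hψ, fun i hi x => ?_⟩
      by_cases hia : i = a
      · subst hia
        simp only [if_true]
        have := hrz x
        rw [hr] at this
        simp only at this
        linarith
      · simp only [if_neg hia]
        rcases Finset.mem_insert.1 hi with h | h
        · exact absurd h hia
        · exact hc i h x
    · have hsN : 0 < √N := Real.sqrt_pos.2 hpos
      set q : X m → ℝ := fun x => (√N)⁻¹ * r x with hq
      have hq1 : C1 q := ⟨contDiff_const.mul hr1.smooth, hr1.supp.mul_left⟩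
      have hqq : ∫ x, q x * q x = 1 := by
        have e1 : ∀ x, q x * q x = ((√N)⁻¹ * (√N)⁻¹) * (r x * r x) := fun x => by
          simp only [hq]; ring
        simp only [e1]
        rw [integral_const_mul, ← hN, ← mul_inv, Real.mul_self_sqrt hN0]
        exact inv_mul_cancel₀ hpos.ne'
      have hqo : ∀ j, ∫ x, q x * ψ j x = 0 := by
        intro j
        have e1 : ∀ x, q x * ψ j x = (√N)⁻¹ * (r x * ψ j x) := fun x => by
          simp only [hq]; ring
        simp only [e1]
        rw [integral_const_mul, horth, mul_zero]
      refine ⟨n + 1, Fin.cons q ψ, fun i => if i = a then Fin.cons (√N) c0 else Fin.cons 0 (c i),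
        ⟨?_, ?_, ?_⟩, fun i hi x => ?_⟩
      · intro i
        refine Fin.cases ?_ (fun j => ?_) i
        · exact hq1.smooth
        · exact (hψ1 j).smooth
      · intro i
        refine Fin.cases ?_ (fun j => ?_) i
        · exact hq1.supp
        · exact (hψ1 j).supp
      · intro i i'
        refine Fin.cases ?_ (fun j => ?_) i
        · refine Fin.cases ?_ (fun j' => ?_) i'
          · simpa using hqq
          · simp only [Fin.cons_zero, Fin.cons_succ]
            rw [hqo, if_neg (Fin.succ_ne_zero j').symm]
        · refine Fin.cases ?_ (fun j' => ?_) i'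
          · simp only [Fin.cons_zero, Fin.cons_succ]
            have e1 : ∀ x, ψ j x * q x = q x * ψ j x := fun x => mul_comm _ _
            simp only [e1]
            rw [hqo, if_neg (Fin.succ_ne_zero j)]
          · simp only [Fin.cons_succ]
            rw [hψ.orth]
            simp only [Fin.succ_inj]
      · rw [Fin.sum_univ_succ]
        by_cases hia : i = a
        · subst hia
          simp only [if_true, Fin.cons_zero, Fin.cons_succ]
          simp only [hq]
          rw [← mul_assoc, mul_inv_cancel₀ hsN.ne', one_mul, hr]
          simp only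
          ring
        · simp only [if_neg hia, Fin.cons_zero, Fin.cons_succ, zero_mul, zero_add]
          rcases Finset.mem_insert.1 hi with h | h
          · exact absurd h hia
          · exact hc i h x

theorem t_GSR : S_GSR := by
  classical
  intro m ι _ φ h1 h2
  obtain ⟨n, ψ, c, hψ, hc⟩ := gsr φ (fun i => ⟨h1 i, h2 i⟩) Finset.univ
  exact ⟨n, ψ, c, hψ, fun i x => hc i (Finset.mem_univ i) x⟩

end Pool.Agent.W2helper90.RT
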