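import Pool.Agent.W2helper90.RT.Stm
import Pool.Agent.N537.RS.Tau

set_option autoImplicit false

/-! # Piece TAU2 -/

open MeasureTheory Set Filter Topology

namespace Pool.Agent.W2helper90.RT

theorem split2 (k m : ℕ) (v t τ : ℝ) :
    Real.exp (-((m : ℝ) * t)) * (max (Real.exp (2 * t) * (v - τ)) 0) ^ (((k : ℝ) + m) / 2) =
      Real.exp (k * t) * (max (v - τ) 0) ^ (((k : ℝ) + m) / 2) := by
  have h1 : max (Real.exp (2 * t) * (v - τ)) 0 = Real.exp (2 * t) * max (v - τ) 0 := by
    rw [mul_max_of_nonneg _ _ (Real.exp_pos _).le, mul_zero]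
  rw [h1, Real.mul_rpow (Real.exp_pos _).le (le_max_right _ _), ← Real.exp_mul, ← mul_assoc,
    ← Real.exp_add]
  congr 2
  ring

theorem t_TAU2 : S_TAU2 := by
  intro k m hk V hV hV0
  have hk' : (6 : ℝ) ≤ k := by exact_mod_cast hk
  have hm0 : (0 : ℝ) ≤ m := Nat.cast_nonneg m
  have hm : Measurable (Function.uncurry (fun (τ : ℝ) (x : X m) => ENNReal.ofReal
      (Real.exp (-((m : ℝ) * x 0)) *
        (max (Real.exp (2 * x 0) * (V x - τ)) 0) ^ (((k : ℝ) + m) / 2)))) := by
    have m0 : Measurable fun p : ℝ × X m => p.2 0 := (measurable_pi_apply 0).comp measurable_snd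
    apply ENNReal.measurable_ofReal.comp
    apply Measurable.mul
    · exact Real.measurable_exp.comp (m0.const_mul _).neg
    apply Measurable.pow_const
    apply Measurable.max _ measurable_const
    apply Measurable.mul
    · exact Real.measurable_exp.comp (m0.const_mul 2)
    · exact (hV.comp measurable_snd).sub measurable_fst
  rw [lintegral_lintegral_swap hm.aemeasurable, ← lintegral_const_mul']
  · apply lintegral_congr
    intro x
    have h1 : ∀ τ : ℝ, ENNReal.ofReal (Real.exp (-((m : ℝ) * x 0)) *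
        (max (Real.exp (2 * x 0) * (V x - τ)) 0) ^ (((k : ℝ) + m) / 2)) =
        ENNReal.ofReal (Real.exp (k * x 0)) *
          ENNReal.ofReal ((max (V x - τ) 0) ^ (((k : ℝ) + m) / 2)) := by
      intro τ
      rw [split2, ENNReal.ofReal_mul (Real.exp_pos _).le]
    simp_rw [h1]
    rw [lintegral_const_mul' _ _ ENNReal.ofReal_ne_top,
      Pool.Agent.N537.RS.TA.aux _ _ (hV0 x) (by linarith),
      ← ENNReal.ofReal_mul (Real.exp_pos _).le, ← ENNReal.ofReal_mul (by positivity)]
    congr 1
    rw [show (1 : ℝ) + ((k : ℝ) + m) / 2 = ((k : ℝ) + m) / 2 + 1 by ring]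
    have : ((k : ℝ) + m) / 2 + 1 ≠ 0 := by linarith
    have h2 : (k : ℝ) + m + 2 ≠ 0 := by linarith
    field_simp
  · exact ENNReal.ofReal_ne_top

end Pool.Agent.W2helper90.RT
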