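import Pool.Agent.W2helper90.RT.CORE
import Pool.Agent.W2helper90.RT.EIG
import Pool.Agent.W2helper90.RT.TAU2
import Pool.Agent.W2helper90.RT.GSR
import Pool.Agent.W2helper90.RT.ANG
import Pool.Agent.W2helper66.RT.MAT
import Pool.Agent.W2helper66.RT.HARM
import Pool.Agent.W2helper90.RT.CAS
import Pool.Agent.W2helper43.RT.POT
import Pool.Agent.W2helper72.RT.DENS
import Pool.Agent.W2helper92.RT.POL
import Pool.Agent.W2helper92.RT.PH
import Pool.Agent.W2helper93.RT.LEN
import Pool.Agent.W2helper93.RT.ENE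
import Pool.Agent.W2helper73.RT.BES
import Pool.Agent.W2helper73.RT.PAR
import Pool.Agent.W2helper5.RT.CST2
import Pool.Agent.W2helper5.RT.FLAT
import Pool.Agent.W2helper11.RT.CUT
import Pool.Agent.W2helper17.RT.SOB
import Pool.Agent.W2helper51.RT.GEN

set_option autoImplicit false

/-! # Project RT: assembly -/

namespace Pool.Agent.W2helper90.RT

theorem a_CORE : S_CORE := t_CORE (t_EIG t_WT) Pool.Agent.W2helper66.RT.t_MAT t_TAU2 t_GSR

theorem a_ANG : S_ANG := t_ANG t_IBP t_CAS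

theorem a_HARM : S_HARM := Pool.Agent.W2helper66.RT.t_HARM (t_PERP t_IBP t_CAS) t_DENS

theorem a_BES : S_BES := t_BES (Pool.Agent.W2helper93.RT.t_ENE Pool.Agent.W2helper92.RT.t_POL) Pool.Agent.W2helper92.RT.t_PH a_ANG

theorem a_PAR : S_PAR := t_PAR (Pool.Agent.W2helper93.RT.t_LEN Pool.Agent.W2helper92.RT.t_POL) Pool.Agent.W2helper92.RT.t_PH

theorem a_POT : S_POT := t_POT a_CORE a_HARM Pool.Agent.W2helper92.RT.t_PH a_BES a_PAR

theorem a_FLAT : S_FLAT := t_FLAT a_POT Pool.Agent.W2helper92.RT.t_POL t_CST2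

theorem a_SOB : S_SOB := Pool.Agent.W2helper17.RT.t_SOB (t_CUT a_FLAT)

theorem a_GEN : S_GEN := t_GEN a_SOB

theorem a_KINF : S_KINF := t_KINF a_GEN t_CST2

end Pool.Agent.W2helper90.RT
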