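import Pool.Agent.W2helper90.RT.Stm
import Pool.Agent.Helper717.LT.P_pd_sum
import Pool.Agent.Helper717.LT.P_pd_basic

set_option autoImplicit false

/-! # Bilinear forms on the `C¹` functions with compact support -/

open MeasureTheory Set Filter Topology Real
open scoped Matrix

namespace Pool.Agent.W2helper90.RT

open LTd

variable {m n : ℕ}

/-- `C¹` with compact support -/
structure C1 (f : X m → ℝ) : Prop where
  smooth : ContDiff ℝ 1 f
  supp : HasCompactSupport f

theorem C1.sum {ι : Type} (s : Finset ι) {f : ι → X m → ℝ} (hf : ∀ i, C1 (f i)) (c : ι → ℝ) :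
    C1 (fun x => ∑ i ∈ s, c i * f i x) := by
  refine ⟨ContDiff.sum fun i _ => contDiff_const.mul (hf i).smooth, ?_⟩
  refine HasCompactSupport.intro (K := ⋃ i ∈ s, tsupport (f i))
    (s.isCompact_biUnion fun i _ => (hf i).supp) fun x hx => ?_
  refine Finset.sum_eq_zero fun i hi => ?_
  have h0 : f i x = 0 := image_eq_zero_of_notMem_tsupport fun h => hx (Set.mem_biUnion hi h)
  rw [h0, mul_zero]

theorem C1.pdc {f : X m → ℝ} (hf : C1 f) (k : Fin (m + 1)) :
    Continuous (pd k f) ∧ HasCompactSupport (pd k f) := pd_basic hf.smooth hf.supp k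

theorem exp_cont (c : ℝ) : Continuous (fun x : X m => Real.exp (c * x 0)) :=
  Real.continuous_exp.comp (continuous_const.mul (continuous_apply 0))

/-- the integrand of `kin` -/
noncomputable def kf (f h : X m → ℝ) (x : X m) : ℝ :=
  pd 0 f x * pd 0 h x + Real.exp (2 * x 0) * ∑ k : Fin m, pd k.succ f x * pd k.succ h x

theorem kin_eq (f h : X m → ℝ) : kin f h = ∫ x, kf f h x := rfl

theorem kf_cont {f h : X m → ℝ} (hf : C1 f) (hh : C1 h) : Continuous (kf f h) :=
  ((hf.pdc 0).1.mul (hh.pdc 0).1).add ((exp_cont 2).mul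
    (continuous_finsetSum _ fun k _ => (hf.pdc k.succ).1.mul (hh.pdc k.succ).1))

theorem kf_int {f h : X m → ℝ} (hf : C1 f) (hh : C1 h) : Integrable (kf f h) := by
  refine (kf_cont hf hh).integrable_of_hasCompactSupport ?_
  refine HasCompactSupport.intro (K := ⋃ k : Fin (m + 1), tsupport (pd k f))
    (isCompact_iUnion fun k => (hf.pdc k).2) fun x hx => ?_
  have h0 : ∀ k, pd k f x = 0 := fun k => image_eq_zero_of_notMem_tsupport
    fun h => hx (Set.mem_iUnion.2 ⟨k, h⟩)
  simp [kf, h0]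

theorem kf_sum (ψ : Fin n → X m → ℝ) (hψ : ∀ i, C1 (ψ i)) (c d : Fin n → ℝ) (x : X m) :
    kf (fun x => ∑ i, c i * ψ i x) (fun x => ∑ i, d i * ψ i x) x =
      ∑ i, ∑ j, (c i * d j) * kf (ψ i) (ψ j) x := by
  unfold kf
  simp only [pd_sum ψ (fun i => (hψ i).smooth), Finset.sum_mul_sum]
  simp only [mul_add, Finset.sum_add_distrib, Finset.mul_sum]
  congr 1
  · refine Finset.sum_congr rfl fun i _ => Finset.sum_congr rfl fun j _ => ?_
    ring
  · rw [Finset.sum_comm]
    refine Finset.sum_congr rfl fun i _ => ?_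
    rw [Finset.sum_comm]
    refine Finset.sum_congr rfl fun j _ => Finset.sum_congr rfl fun k _ => ?_
    ring

theorem kin_sum (ψ : Fin n → X m → ℝ) (hψ : ∀ i, C1 (ψ i)) (c d : Fin n → ℝ) :
    kin (fun x => ∑ i, c i * ψ i x) (fun x => ∑ i, d i * ψ i x) =
      ∑ i, ∑ j, (c i * d j) * kin (ψ i) (ψ j) := by
  simp only [kin_eq, kf_sum ψ hψ]
  rw [integral_finsetSum _ fun i _ => integrable_finsetSum _ fun j _ =>
    (kf_int (hψ i) (hψ j)).const_mul _]
  refine Finset.sum_congr rfl fun i _ => ?_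
  rw [integral_finsetSum _ fun j _ => (kf_int (hψ i) (hψ j)).const_mul _]
  refine Finset.sum_congr rfl fun j _ => ?_
  rw [integral_const_mul]

theorem W_int {W : X m → ℝ} (hW : Measurable W) (hb : ∃ C : ℝ, ∀ x, |W x| ≤ C * Real.exp (2 * x 0))
    {f h : X m → ℝ} (hf : C1 f) (hh : C1 h) : Integrable (fun x => W x * (f x * h x)) := by
  obtain ⟨C, hC⟩ := hb
  have h1 : Integrable (fun x : X m => C * Real.exp (2 * x 0) * |f x * h x|) := by
    refine ((continuous_const.mul (exp_cont 2)).mul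
      (hf.smooth.continuous.mul hh.smooth.continuous).abs).integrable_of_hasCompactSupport ?_
    refine HasCompactSupport.intro hf.supp fun x hx => ?_
    show C * Real.exp (2 * x 0) * |f x * h x| = 0
    rw [image_eq_zero_of_notMem_tsupport hx, zero_mul, abs_zero, mul_zero]
  refine h1.mono' (hW.mul (hf.smooth.continuous.mul hh.smooth.continuous).measurable).aestronglyMeasurable
    (ae_of_all _ fun x => ?_)
  rw [norm_mul, Real.norm_eq_abs, Real.norm_eq_abs]
  exact mul_le_mul_of_nonneg_right (hC x) (abs_nonneg _)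

theorem W_sum {W : X m → ℝ} (hW : Measurable W) (hb : ∃ C : ℝ, ∀ x, |W x| ≤ C * Real.exp (2 * x 0))
    (ψ : Fin n → X m → ℝ) (hψ : ∀ i, C1 (ψ i)) (c d : Fin n → ℝ) :
    ∫ x, W x * ((∑ i, c i * ψ i x) * (∑ i, d i * ψ i x)) =
      ∑ i, ∑ j, (c i * d j) * ∫ x, W x * (ψ i x * ψ j x) := by
  have h1 : ∀ x, W x * ((∑ i, c i * ψ i x) * (∑ i, d i * ψ i x)) =
      ∑ i, ∑ j, (c i * d j) * (W x * (ψ i x * ψ j x)) := by
    intro x
    rw [Finset.sum_mul_sum, Finset.mul_sum]
    refine Finset.sum_congr rfl fun i _ => ?_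
    rw [Finset.mul_sum]
    refine Finset.sum_congr rfl fun j _ => ?_
    ring
  simp only [h1]
  rw [integral_finsetSum _ fun i _ => integrable_finsetSum _ fun j _ =>
    (W_int hW hb (hψ i) (hψ j)).const_mul _]
  refine Finset.sum_congr rfl fun i _ => ?_
  rw [integral_finsetSum _ fun j _ => (W_int hW hb (hψ i) (hψ j)).const_mul _]
  refine Finset.sum_congr rfl fun j _ => ?_
  rw [integral_const_mul]

theorem L_int {f h : X m → ℝ} (hf : C1 f) (hh : C1 h) : Integrable (fun x => f x * h x) := by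
  refine (hf.smooth.continuous.mul hh.smooth.continuous).integrable_of_hasCompactSupport ?_
  exact hf.supp.mul_right

theorem L_sum (ψ : Fin n → X m → ℝ) (hψ : ∀ i, C1 (ψ i)) (c d : Fin n → ℝ) :
    ∫ x, ((∑ i, c i * ψ i x) * (∑ i, d i * ψ i x)) =
      ∑ i, ∑ j, (c i * d j) * ∫ x, (ψ i x * ψ j x) := by
  have h1 : ∀ x, ((∑ i, c i * ψ i x) * (∑ i, d i * ψ i x)) =
      ∑ i, ∑ j, (c i * d j) * (ψ i x * ψ j x) := by
    intro x
    rw [Finset.sum_mul_sum]
    refine Finset.sum_congr rfl fun i _ => Finset.sum_congr rfl fun j _ => ?_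
    ring
  simp only [h1]
  rw [integral_finsetSum _ fun i _ => integrable_finsetSum _ fun j _ =>
    (L_int (hψ i) (hψ j)).const_mul _]
  refine Finset.sum_congr rfl fun i _ => ?_
  rw [integral_finsetSum _ fun j _ => (L_int (hψ i) (hψ j)).const_mul _]
  refine Finset.sum_congr rfl fun j _ => ?_
  rw [integral_const_mul]

theorem ON.c1 {ψ : Fin n → X m → ℝ} (h : ON ψ) (i : Fin n) : C1 (ψ i) := ⟨h.smooth i, h.supp i⟩

/-- in an orthonormal family -/
theorem ON.L_sum {ψ : Fin n → X m → ℝ} (h : ON ψ) (c d : Fin n → ℝ) :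
    ∫ x, ((∑ i, c i * ψ i x) * (∑ i, d i * ψ i x)) = ∑ i, c i * d i := by
  rw [RT.L_sum ψ h.c1]
  simp only [h.orth, mul_ite, mul_one, mul_zero, Finset.sum_ite_eq, Finset.mem_univ, if_true]

end Pool.Agent.W2helper90.RT
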