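import Pool.Agent.W2helper90.RT.Bil

set_option autoImplicit false

/-! # Piece CORE -/

open MeasureTheory Set Filter Topology Real
open scoped Matrix

namespace Pool.Agent.W2helper90.RT

open LTd

theorem quad {n : ℕ} (M : Matrix (Fin n) (Fin n) ℝ) (c d : Fin n → ℝ) :
    c ⬝ᵥ (M *ᵥ d) = ∑ i, ∑ j, (c i * d j) * M i j := by
  simp only [dotProduct, Matrix.mulVec, Finset.mul_sum]
  refine Finset.sum_congr rfl fun i _ => Finset.sum_congr rfl fun j _ => ?_
  ring

theorem kin_comm {m : ℕ} (f h : X m → ℝ) : kin f h = kin h f := by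
  unfold kin
  refine integral_congr_ae (ae_of_all _ fun x => ?_)
  simp only [mul_comm (pd _ f x)]

theorem t_CORE (h1 : S_EIG) (h2 : S_MAT) (h3 : S_TAU2) (h4 : S_GSR) : S_CORE := by
  intro k m hk L g hg N φ hφ hφc hsub V hV hV0 hVb
  classical
  obtain ⟨n, ψ, c, hψ, hc⟩ := h4 m (Σ l : Fin L, Fin (g l) × Fin N)
    (fun p => φ p.1 p.2.1 p.2.2) (fun p => hφ _ _ _) (fun p => hφc _ _ _)
  set v : ∀ l, Fin (g l) → Fin N → Fin n → ℝ :=
    fun l j a => if h : l < L then c ⟨⟨l, h⟩, (j, a)⟩ else 0 with hv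
  have hvφ : ∀ l < L, ∀ j a, φ l j a = fun x => ∑ i, v l j a i * ψ i x := by
    intro l hl j a
    funext x
    have h5 := hc ⟨⟨l, hl⟩, (j, a)⟩ x
    simp only at h5
    rw [h5]
    refine Finset.sum_congr rfl fun i _ => ?_
    simp only [hv, dif_pos hl]
  obtain ⟨C, hC⟩ := hVb
  have hψ1 := hψ.c1
  set W0 : X m → ℝ := fun x => Real.exp (2 * x 0) with hW0
  set WV : X m → ℝ := fun x => Real.exp (2 * x 0) * V x with hWV
  have hW0m : Measurable W0 := (exp_cont 2).measurable
  have hWVm : Measurable WV := hW0m.mul hV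
  have hW0b : ∃ C : ℝ, ∀ x, |W0 x| ≤ C * Real.exp (2 * x 0) :=
    ⟨1, fun x => by rw [one_mul, abs_of_pos (Real.exp_pos _)]⟩
  have hWVb : ∃ C : ℝ, ∀ x, |WV x| ≤ C * Real.exp (2 * x 0) := by
    refine ⟨C, fun x => ?_⟩
    rw [hWV]
    simp only
    rw [abs_mul, abs_of_pos (Real.exp_pos _), abs_of_nonneg (hV0 x), mul_comm]
    exact mul_le_mul_of_nonneg_right (hC x) (Real.exp_pos _).le
  set M : Matrix (Fin n) (Fin n) ℝ := Matrix.of fun i i' => ∫ x, W0 x * (ψ i x * ψ i' x) with hM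
  set A : Matrix (Fin n) (Fin n) ℝ := Matrix.of fun i i' =>
    kin (ψ i) (ψ i') - ∫ x, WV x * (ψ i x * ψ i' x) with hA
  have qM : ∀ c d : Fin n → ℝ, c ⬝ᵥ (M *ᵥ d) =
      ∫ x, W0 x * ((∑ i, c i * ψ i x) * (∑ i, d i * ψ i x)) := by
    intro c d
    rw [quad, W_sum hW0m hW0b ψ hψ1]
    rfl
  have qA : ∀ c d : Fin n → ℝ, c ⬝ᵥ (A *ᵥ d) =
      kin (fun x => ∑ i, c i * ψ i x) (fun x => ∑ i, d i * ψ i x) -
      ∫ x, WV x * ((∑ i, c i * ψ i x) * (∑ i, d i * ψ i x)) := by
    intro c d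
    rw [quad, W_sum hWVm hWVb ψ hψ1, kin_sum ψ hψ1, ← Finset.sum_sub_distrib]
    refine Finset.sum_congr rfl fun i _ => ?_
    rw [← Finset.sum_sub_distrib]
    refine Finset.sum_congr rfl fun j _ => ?_
    rw [hA, Matrix.of_apply]
    ring
  have hMh : M.IsHermitian := by
    ext i j
    rw [Matrix.conjTranspose_apply, hM, Matrix.of_apply, Matrix.of_apply, star_trivial]
    refine integral_congr_ae (ae_of_all _ fun x => ?_)
    simp only [mul_comm (ψ j x)]
  have hAh : A.IsHermitian := by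
    ext i j
    rw [Matrix.conjTranspose_apply, hA, Matrix.of_apply, Matrix.of_apply, star_trivial, kin_comm]
    congr 1
    refine integral_congr_ae (ae_of_all _ fun x => ?_)
    simp only [mul_comm (ψ j x)]
  have hMp : M.PosDef := by
    refine Matrix.PosDef.of_dotProduct_mulVec_pos hMh fun b hb => ?_
    rw [star_trivial, qM]
    set f : X m → ℝ := fun x => ∑ i, b i * ψ i x with hf
    have hf1 : C1 f := C1.sum Finset.univ hψ1 b
    have hne : ∃ x, f x ≠ 0 := by
      by_contra hcon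
      push Not at hcon
      have h5 := hψ.L_sum b b
      have h6 : ∫ x, (∑ i, b i * ψ i x) * (∑ i, b i * ψ i x) = 0 := by
        have : ∀ x, (∑ i, b i * ψ i x) * (∑ i, b i * ψ i x) = 0 := fun x => by
          have := hcon x
          simp only [hf] at this
          rw [this, mul_zero]
        simp only [this, integral_zero]
      rw [h6] at h5
      apply hb
      funext i
      have h7 := (Finset.sum_eq_zero_iff_of_nonneg fun i _ => mul_self_nonneg (b i)).1 h5.symm i
        (Finset.mem_univ i)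
      simpa using h7
    obtain ⟨x0, hx0⟩ := hne
    refine Continuous.integral_pos_of_hasCompactSupport_nonneg_nonzero
      (f := fun x => W0 x * (f x * f x)) ((exp_cont 2).mul
        (hf1.smooth.continuous.mul hf1.smooth.continuous)) ?_ (fun x => ?_) (x := x0) ?_
    · exact (hf1.supp.mul_right).mul_left
    · exact mul_nonneg (Real.exp_pos _).le (mul_self_nonneg _)
    · exact mul_ne_zero (Real.exp_pos _).ne' (mul_ne_zero hx0 hx0)
  have hH : ∀ τ : ℝ, (A + τ • M).IsHermitian := by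
    intro τ
    refine hAh.add ?_
    ext i j
    rw [Matrix.conjTranspose_apply, Matrix.smul_apply, Matrix.smul_apply, star_trivial]
    congr 1
    have := congrFun (congrFun hMh i) j
    rwa [Matrix.conjTranspose_apply, star_trivial] at this
  have hmat := h2 k hk n A M hAh hMp L g hg N v (by
    intro l hl j b
    have h5 := hsub l hl j b
    rw [qM]
    refine le_trans (le_of_eq ?_) h5
    refine integral_congr_ae (ae_of_all _ fun x => ?_)
    simp only [hW0]
    rw [sq]
    have h6 : ∑ a, b a * φ l j a x = ∑ i, (∑ a, b a • v l j a) i * ψ i x := by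
      simp only [Finset.sum_apply, Pi.smul_apply, smul_eq_mul, Finset.sum_mul]
      rw [Finset.sum_comm]
      refine Finset.sum_congr rfl fun a _ => ?_
      rw [hvφ l hl j a, Finset.mul_sum]
      refine Finset.sum_congr rfl fun i _ => ?_
      ring
    rw [h6]) hH
  have hlhs : ∑ l ∈ Finset.range L, ∑ j, ∑ a, (-(v l j a ⬝ᵥ (A *ᵥ v l j a)) -
      ((l : ℝ) + ((k : ℝ) - 2) / 2) ^ 2 * (v l j a ⬝ᵥ v l j a)) =
      ∑ l ∈ Finset.range L, ∑ j, ∑ a,
        ((∫ x : X m, Real.exp (2 * x 0) * V x * φ l j a x ^ 2) - kin (φ l j a) (φ l j a) -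
          ((l : ℝ) + ((k : ℝ) - 2) / 2) ^ 2 * ∫ x, φ l j a x ^ 2) := by
    refine Finset.sum_congr rfl fun l hl => Finset.sum_congr rfl fun j _ =>
      Finset.sum_congr rfl fun a _ => ?_
    have hl' := Finset.mem_range.1 hl
    rw [qA, hvφ l hl' j a]
    have h5 : v l j a ⬝ᵥ v l j a = ∫ x, (∑ i, v l j a i * ψ i x) ^ 2 := by
      have := hψ.L_sum (v l j a) (v l j a)
      simp only [sq]
      rw [this]
      rfl
    rw [h5]
    simp only [hWV, sq]
    ring
  rw [hlhs] at hmat
  refine hmat.trans ?_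
  have hstep : ∫⁻ τ in Ioi (0 : ℝ),
      ∑ i, ENNReal.ofReal ((max (-(hH τ).eigenvalues i) 0) ^ (((k : ℝ) - 1) / 2)) ≤
      ENNReal.ofReal (Lc k m) * (ENNReal.ofReal (2 / ((k : ℝ) + m + 2)) *
      ∫⁻ x : X m, ENNReal.ofReal (Real.exp (k * x 0) * V x ^ (1 + ((k : ℝ) + m) / 2))) := by
    rw [← h3 k m hk V hV hV0, ← lintegral_const_mul' _ _ ENNReal.ofReal_ne_top]
    refine lintegral_mono fun τ => ?_
    refine h1 k m (by omega) n ψ hψ (fun x => Real.exp (2 * x 0) * (V x - τ))
      (hW0m.mul (hV.sub_const τ)) ⟨C + |τ|, fun x => ?_⟩ (A + τ • M) (hH τ) fun i j => ?_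
    · rw [abs_mul, abs_of_pos (Real.exp_pos _), mul_comm]
      refine mul_le_mul_of_nonneg_right ?_ (Real.exp_pos _).le
      refine (abs_sub _ _).trans ?_
      rw [abs_of_nonneg (hV0 x)]
      linarith [hC x]
    · have h5 : ∀ x : X m, Real.exp (2 * x 0) * (V x - τ) * (ψ i x * ψ j x) =
          WV x * (ψ i x * ψ j x) - τ * (W0 x * (ψ i x * ψ j x)) := fun x => by
        simp only [hWV, hW0]; ring
      simp only [h5]
      rw [integral_sub (W_int hWVm hWVb (hψ1 i) (hψ1 j))
        ((W_int hW0m hW0b (hψ1 i) (hψ1 j)).const_mul _), integral_const_mul]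
      rw [Matrix.add_apply, Matrix.smul_apply, hA, hM, Matrix.of_apply, Matrix.of_apply,
        smul_eq_mul]
      ring
  refine (mul_le_mul_right hstep _).trans (le_of_eq ?_)
  have hLc : 0 ≤ Lc k m := by
    unfold Lc
    have hk' : (6 : ℝ) ≤ k := by exact_mod_cast hk
    have hm : (0 : ℝ) ≤ m := Nat.cast_nonneg m
    have a1 := Real.Gamma_pos_of_pos (s := ((k : ℝ) + 1) / 2) (by linarith)
    have a2 := Real.Gamma_pos_of_pos (s := ((k : ℝ) + m) / 2 + 1) (by linarith)
    have := Real.pi_pos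
    positivity
  rw [ENNReal.ofReal_mul (by positivity), ENNReal.ofReal_mul (by positivity)]
  ring

end Pool.Agent.W2helper90.RT
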