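import Pool.Agent.W2helper90.RT.Stm
import Pool.Agent.N303.SH.G

set_option autoImplicit false

/-! # Piece IBP: integration by parts on the sphere -/

open MeasureTheory Set Filter Topology
open scoped RealInnerProductSpace

namespace Pool.Agent.W2helper90.RT

/-- the generator of the rotations in the plane of the coordinates `i`, `j` -/
noncomputable def gen {k : ℕ} (i j : Fin k) : E k →L[ℝ] E k :=
  (EuclideanSpace.proj i : E k →L[ℝ] ℝ).smulRight (EuclideanSpace.single j (1 : ℝ)) -
    (EuclideanSpace.proj j : E k →L[ℝ] ℝ).smulRight (EuclideanSpace.single i (1 : ℝ))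

theorem gen_apply {k : ℕ} (i j : Fin k) (x : E k) : gen i j x =
    x i • EuclideanSpace.single j (1 : ℝ) - x j • EuclideanSpace.single i (1 : ℝ) := by
  simp [gen]

theorem gen_skew {k : ℕ} (i j : Fin k) (x y : E k) : ⟪gen i j x, y⟫ = -⟪x, gen i j y⟫ := by
  rw [gen_apply, gen_apply]
  simp only [inner_sub_left, inner_sub_right, inner_smul_left, inner_smul_right,
    EuclideanSpace.inner_single_left, EuclideanSpace.inner_single_right]
  simp
  ring

theorem rd_eq {k : ℕ} (i j : Fin k) (f : E k → ℝ) (x : E k) :
    rd i j f x = fderiv ℝ f x (gen i j x) := by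
  rw [gen_apply]
  rfl

theorem rd_cont {k : ℕ} (i j : Fin k) {f : E k → ℝ} (hf : ContDiff ℝ 1 f) :
    Continuous (rd i j f) := by
  have h : rd i j f = fun x => fderiv ℝ f x (gen i j x) := funext fun x => rd_eq i j f x
  rw [h]
  exact (hf.continuous_fderiv (by norm_num)).clm_apply (gen i j).continuous

theorem t_IBP : S_IBP := by
  intro k i j f h hf hh
  have key := Pool.Agent.N303.SH.rotint (gen i j) (gen_skew i j)
    (G := fun x => ((f x * h x : ℝ) : ℂ))
    (G' := fun x => ((rd i j f x * h x + f x * rd i j h x : ℝ) : ℂ))
    (Complex.continuous_ofReal.comp (hf.continuous.mul hh.continuous))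
    (Complex.continuous_ofReal.comp (((rd_cont i j hf).mul hh.continuous).add
      (hf.continuous.mul (rd_cont i j hh)))) (by
      intro x s
      have hd := R235.VE.exp_deriv (gen i j) x s
      have h1 : ∀ g : E k → ℝ, ContDiff ℝ 1 g →
          HasDerivAt (fun s => g (Pool.Agent.N303.SH.rexp (gen i j) (gen_skew i j) s x))
            (rd i j g (Pool.Agent.N303.SH.rexp (gen i j) (gen_skew i j) s x)) s := by
        intro g hg
        rw [rd_eq]
        exact ((hg.differentiable (by norm_num) _).hasFDerivAt).comp_hasDerivAt s hd
      exact ((h1 f hf).mul (h1 h hh)).ofReal_comp)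
  rw [integral_complex_ofReal] at key
  have key2 : ∫ w : S k, (rd i j f w * h w + f w * rd i j h w) ∂(sm k) = 0 := by
    exact_mod_cast key
  have i1 : Integrable (fun w : S k => rd i j f w * h w) (sm k) :=
    (((rd_cont i j hf).mul hh.continuous).comp continuous_subtype_val).integrable_of_hasCompactSupport
      (HasCompactSupport.of_compactSpace _)
  have i2 : Integrable (fun w : S k => f w * rd i j h w) (sm k) :=
    ((hf.continuous.mul (rd_cont i j hh)).comp continuous_subtype_val).integrable_of_hasCompactSupport
      (HasCompactSupport.of_compactSpace _)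
  rw [integral_add i1 i2] at key2
  linarith

end Pool.Agent.W2helper90.RT
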