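import Pool.Agent.W2helper90.RT.All

set_option autoImplicit false

/-! # The mean over the rotations of the first `k` coordinates -/

open MeasureTheory Set Filter Topology
open scoped ENNReal

namespace Pool.Agent.W2helper90.RT

noncomputable section

variable {k m : ℕ}

/-- the Euclidean norm of the first `k` coordinates -/
def radius (k m : ℕ) (x : Fin (k + m) → ℝ) : ℝ := √(∑ i : Fin k, x (Fin.castAdd m i) ^ 2)

/-- the first `k` coordinates are replaced by `radius x * w`, the others are kept -/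
def turn (k m : ℕ) (w : S k) (x : Fin (k + m) → ℝ) : Fin (k + m) → ℝ :=
  fun i => Fin.addCases (fun i => radius k m x * (w : E k) i) (fun j => x (Fin.natAdd k j)) i

/-- the mean over the rotations of the first `k` coordinates -/
def rotMean (k m : ℕ) (F : (Fin (k + m) → ℝ) → ℝ≥0∞) (x : Fin (k + m) → ℝ) : ℝ≥0∞ :=
  (sm k univ)⁻¹ * ∫⁻ w, F (turn k m w x) ∂(sm k)

theorem turn_eq (w : S k) (x : Fin (k + m) → ℝ) :
    turn k m w x = Ph k m (radius k m x • (w : E k), fun j => x (Fin.natAdd k j)) := by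
  funext i
  refine Fin.addCases (fun i => ?_) (fun j => ?_) i
  · rw [Ph_cast]
    simp [turn]
  · rw [Ph_nat]
    simp [turn]

theorem radius_Ph (z : Z k m) : radius k m (Ph k m z) = ‖z.1‖ := by
  unfold radius
  rw [Ph_sq, Real.sqrt_sq (norm_nonneg _)]

theorem turn_Ph (w : S k) (t : ℝ) (w' : S k) (y : Fin m → ℝ) :
    turn k m w (Ph k m (Real.exp t • (w' : E k), y)) = Ph k m (Real.exp t • (w : E k), y) := by
  rw [turn_eq, radius_Ph]
  have h1 : ‖(w' : E k)‖ = 1 := Pool.Agent.N303.SH.S_norm w'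
  simp only [norm_smul, h1, mul_one, Real.norm_eq_abs, abs_of_pos (Real.exp_pos t)]
  congr 2
  funext j
  rw [Ph_nat]

theorem lint_Ph (hk : 1 ≤ k) (G : (Fin (k + m) → ℝ) → ℝ≥0∞) (hG : Measurable G) :
    ∫⁻ x, G x = ∫⁻ x : X m, ENNReal.ofReal (Real.exp (k * x 0)) *
      ∫⁻ w : S k, G (Ph k m (Real.exp (x 0) • (w : E k), tl x)) ∂(sm k) := by
  rw [← Ph_lint]
  exact Pool.Agent.W2helper92.RT.t_POL k m hk (fun z => G (Ph k m z))
    (hG.comp (Ph k m).continuous.measurable)

theorem radius_meas : Measurable (radius k m) := by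
  unfold radius
  fun_prop

theorem turn_meas : Measurable (fun p : (Fin (k + m) → ℝ) × S k => turn k m p.2 p.1) := by
  rw [measurable_pi_iff]
  intro i
  refine Fin.addCases (fun i => ?_) (fun j => ?_) i
  · have h1 : (fun p : (Fin (k + m) → ℝ) × S k => turn k m p.2 p.1 (Fin.castAdd m i)) =
        fun p => radius k m p.1 * (p.2 : E k) i := by
      funext p
      simp [turn]
    rw [h1]
    have h2 : Continuous (fun w : S k => (w : E k) i) :=
      (EuclideanSpace.proj i : E k →L[ℝ] ℝ).continuous.comp continuous_subtype_val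
    exact (radius_meas.comp measurable_fst).mul (h2.measurable.comp measurable_snd)
  · have h1 : (fun p : (Fin (k + m) → ℝ) × S k => turn k m p.2 p.1 (Fin.natAdd k j)) =
        fun p => p.1 (Fin.natAdd k j) := by
      funext p
      simp [turn]
    rw [h1]
    exact (measurable_pi_apply _).comp measurable_fst

theorem rotMean_meas {F : (Fin (k + m) → ℝ) → ℝ≥0∞} (hF : Measurable F) :
    Measurable (rotMean k m F) :=
  ((hF.comp turn_meas).lintegral_prod_right').const_mul _

theorem rotMean_inv (F : (Fin (k + m) → ℝ) → ℝ≥0∞) (x x' : Fin (k + m) → ℝ)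
    (h1 : ∑ i : Fin k, x (Fin.castAdd m i) ^ 2 = ∑ i : Fin k, x' (Fin.castAdd m i) ^ 2)
    (h2 : ∀ j : Fin m, x (Fin.natAdd k j) = x' (Fin.natAdd k j)) :
    rotMean k m F x = rotMean k m F x' := by
  have h3 : radius k m x = radius k m x' := by unfold radius; rw [h1]
  have h4 : ∀ w, turn k m w x = turn k m w x' := by
    intro w
    unfold turn
    rw [h3]
    funext i
    congr 1
    funext j
    exact h2 j
  unfold rotMean
  simp only [h4]

theorem sm_univ (hk : 1 ≤ k) : sm k univ ≠ 0 ∧ sm k univ ≠ ⊤ := by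
  rw [t_CST2.2.1 k hk]
  refine ⟨?_, ENNReal.ofReal_ne_top⟩
  rw [Ne, ENNReal.ofReal_eq_zero, not_le]
  exact Pool.Agent.R117.RL.sg_pos (by omega)

/-- the integral against invariant functions does not see the mean -/
theorem rotMean_int (hk : 1 ≤ k) {F V : (Fin (k + m) → ℝ) → ℝ≥0∞} (hF : Measurable F)
    (hV : Measurable V)
    (hI : ∀ x x' : Fin (k + m) → ℝ,
      (∑ i : Fin k, x (Fin.castAdd m i) ^ 2 = ∑ i : Fin k, x' (Fin.castAdd m i) ^ 2) →
      (∀ j : Fin m, x (Fin.natAdd k j) = x' (Fin.natAdd k j)) → V x = V x') :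
    ∫⁻ x, V x * F x = ∫⁻ x, V x * rotMean k m F x := by
  rw [lint_Ph hk (fun x => V x * F x) (hV.mul hF),
    lint_Ph hk (fun x => V x * rotMean k m F x) (hV.mul (rotMean_meas hF))]
  refine lintegral_congr fun x => ?_
  congr 1
  obtain ⟨h0, ht⟩ := sm_univ hk
  -- a point of the sphere
  obtain ⟨w0⟩ : Nonempty (S k) := by
    by_contra hne
    rw [not_nonempty_iff] at hne
    apply h0
    have : (univ : Set (S k)) = ∅ := by
      rw [univ_eq_empty_iff]
      exact hne
    rw [this, measure_empty]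
  have hVc : ∀ w : S k, V (Ph k m (Real.exp (x 0) • (w : E k), tl x)) =
      V (Ph k m (Real.exp (x 0) • (w0 : E k), tl x)) := by
    intro w
    have hn : ∀ w : S k, ‖(w : E k)‖ = 1 := fun w => Pool.Agent.N303.SH.S_norm w
    refine hI _ _ ?_ fun j => ?_
    · rw [Ph_sq, Ph_sq]
      simp only [norm_smul, hn]
    · rw [Ph_nat, Ph_nat]
  have hMc : ∀ w : S k, rotMean k m F (Ph k m (Real.exp (x 0) • (w : E k), tl x)) =
      (sm k univ)⁻¹ * ∫⁻ w' : S k, F (Ph k m (Real.exp (x 0) • (w' : E k), tl x)) ∂(sm k) := by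
    intro w
    unfold rotMean
    simp only [turn_Ph]
  have hFm : Measurable fun w : S k => F (Ph k m (Real.exp (x 0) • (w : E k), tl x)) := by
    refine hF.comp ((Ph k m).continuous.measurable.comp ?_)
    have hc : Continuous fun w : S k => ((Real.exp (x 0) • (w : E k), tl x) : Z k m) :=
      (continuous_subtype_val.const_smul (Real.exp (x 0))).prodMk continuous_const
    exact hc.measurable
  simp only [hVc, hMc]
  rw [lintegral_const_mul _ hFm, lintegral_const]
  have : (sm k univ)⁻¹ * sm k univ = 1 := ENNReal.inv_mul_cancel h0 ht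
  calc V (Ph k m (Real.exp (x 0) • (w0 : E k), tl x)) *
      ∫⁻ w : S k, F (Ph k m (Real.exp (x 0) • (w : E k), tl x)) ∂(sm k)
      = V (Ph k m (Real.exp (x 0) • (w0 : E k), tl x)) *
      ((∫⁻ w : S k, F (Ph k m (Real.exp (x 0) • (w : E k), tl x)) ∂(sm k)) *
        ((sm k univ)⁻¹ * sm k univ)) := by rw [this, mul_one]
    _ = _ := by ring

theorem rotMean_ae (hk : 1 ≤ k) {F F' : (Fin (k + m) → ℝ) → ℝ≥0∞} (h : F =ᵐ[volume] F') :
    rotMean k m F =ᵐ[volume] rotMean k m F' := by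
  obtain ⟨N, hN, hNm, hN0⟩ := exists_measurable_superset_of_null h
  obtain ⟨h0, ht⟩ := sm_univ hk
  have h1 := rotMean_int (m := m) hk (F := N.indicator 1) (V := fun _ => 1)
    (measurable_one.indicator hNm) measurable_const (fun _ _ _ _ => rfl)
  simp only [one_mul] at h1
  rw [lintegral_indicator_one hNm, hN0] at h1
  have h2 := (lintegral_eq_zero_iff (rotMean_meas (measurable_one.indicator hNm))).1 h1.symm
  filter_upwards [h2] with x hx
  unfold rotMean at hx ⊢
  congr 1
  rw [Pi.zero_apply, mul_eq_zero] at hx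
  have h3 : ∫⁻ w, N.indicator 1 (turn k m w x) ∂(sm k) = 0 := by
    rcases hx with hx | hx
    · exact absurd (ENNReal.inv_eq_zero.1 hx) ht
    · exact hx
  have hm : Measurable fun w : S k => N.indicator (1 : (Fin (k + m) → ℝ) → ℝ≥0∞) (turn k m w x) :=
    (measurable_one.indicator hNm).comp (turn_meas.comp (measurable_const.prodMk measurable_id))
  have h4 := (lintegral_eq_zero_iff hm).1 h3
  refine lintegral_congr_ae ?_
  filter_upwards [h4] with w hw
  by_contra hne
  have h5 : turn k m w x ∈ N := hN hne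
  rw [Pi.zero_apply, indicator_of_mem h5] at hw
  exact one_ne_zero hw

open Pool.Agent.R282.KO in
/-- **the kinetic inequality for the rotational mean of the density of an arbitrary system** -/
theorem kin_mean (hk : 6 ≤ k) {N : ℕ} (u : Fin N → (Fin (k + m) → ℝ) → ℂ)
    (g : Fin N → Fin (k + m) → (Fin (k + m) → ℝ) → ℂ) (hg : ∀ n, LTd.WGradC (u n) (g n))
    (hS : SubGram u) :
    ENNReal.ofReal (LTd.Kcl (k + m)) *
      ∫⁻ x, rotMean k m (fun x => ENNReal.ofReal (∑ n, ‖u n x‖ ^ 2)) x ^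
        (1 + 2 / ((k + m : ℕ) : ℝ)) ≤
      ENNReal.ofReal (∑ n, ∑ i, ∫ x, ‖g n i x‖ ^ 2) := by
  have hk1 : 1 ≤ k := by omega
  have hd1 : 1 ≤ k + m := by omega
  obtain ⟨hL, hK⟩ := t_CST2.2.2 (k + m) hd1
  set T : ℝ := ∑ n, ∑ i, ∫ x, ‖g n i x‖ ^ 2 with hT
  have hT0 : 0 ≤ T := Finset.sum_nonneg fun n _ => Finset.sum_nonneg fun i _ =>
    integral_nonneg fun x => by positivity
  -- a measurable version of the density
  set ρ : (Fin (k + m) → ℝ) → ℝ := fun x => ∑ n, ‖u n x‖ ^ 2 with hρ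
  have hρi : Integrable ρ := integrable_finsetSum _ fun n _ =>
    (memLp_two_iff_integrable_sq_norm (hg n).f2.1).1 (hg n).f2
  set F : (Fin (k + m) → ℝ) → ℝ≥0∞ := fun x => ENNReal.ofReal (ρ x) with hF
  have hFa : AEMeasurable F volume := hρi.1.aemeasurable.ennreal_ofReal
  set F' := hFa.mk F with hF'
  have hFm : Measurable F' := hFa.measurable_mk
  have hFF : F =ᵐ[volume] F' := hFa.ae_eq_mk
  have hMM := rotMean_ae (m := m) hk1 hFF
  have hI : ∀ x x' : Fin (k + m) → ℝ,
      (∑ i : Fin k, x (Fin.castAdd m i) ^ 2 = ∑ i : Fin k, x' (Fin.castAdd m i) ^ 2) →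
      (∀ j : Fin m, x (Fin.natAdd k j) = x' (Fin.natAdd k j)) →
      rotMean k m F' x = rotMean k m F' x' := rotMean_inv F'
  have hMm := rotMean_meas (m := m) hFm
  -- the mean is integrable
  have hfin : ∫⁻ x, rotMean k m F' x ≠ ⊤ := by
    have h1 := rotMean_int (m := m) hk1 hFm (V := fun _ => 1) measurable_const (fun _ _ _ _ => rfl)
    simp only [one_mul] at h1
    rw [← h1, ← lintegral_congr_ae hFF]
    have h2 : ∫⁻ x, F x = ENNReal.ofReal (∫ x, ρ x) := by
      rw [ofReal_integral_eq_lintegral_ofReal hρi]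
      exact ae_of_all _ fun x => Finset.sum_nonneg fun n _ => by positivity
    rw [h2]
    exact ENNReal.ofReal_ne_top
  have hlt : ∀ᵐ x, rotMean k m F' x < ⊤ := ae_lt_top hMm hfin
  set ρ₀ : (Fin (k + m) → ℝ) → ℝ := fun x => (rotMean k m F' x).toReal with hρ₀
  have hρ₀m : Measurable ρ₀ := hMm.ennreal_toReal
  have hρ₀0 : ∀ x, 0 ≤ ρ₀ x := fun x => ENNReal.toReal_nonneg
  have hρ₀e : ∀ᵐ x, ENNReal.ofReal (ρ₀ x) = rotMean k m F' x := by
    filter_upwards [hlt] with x hx
    exact ENNReal.ofReal_toReal hx.ne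
  have hρ₀i : Integrable ρ₀ := integrable_toReal_of_lintegral_ne_top hMm.aemeasurable hfin
  -- a function with the density `ρ₀`
  set v : Fin 1 → (Fin (k + m) → ℝ) → ℂ := fun _ x => ((√(ρ₀ x) : ℝ) : ℂ) with hv
  have hvs : ∀ x, ∑ n, ‖v n x‖ ^ 2 = ρ₀ x := by
    intro x
    rw [Finset.univ_unique, Finset.sum_singleton, hv]
    simp only
    rw [Complex.norm_real, Real.norm_of_nonneg (Real.sqrt_nonneg _), Real.sq_sqrt (hρ₀0 x)]
  have hvm : ∀ n, MemLp (v n) 2 volume := by
    intro n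
    have hm : AEStronglyMeasurable (v n) volume :=
      (Complex.measurable_ofReal.comp hρ₀m.sqrt).aestronglyMeasurable
    rw [memLp_two_iff_integrable_sq_norm hm]
    refine hρ₀i.congr (ae_of_all _ fun x => ?_)
    rw [← hvs x, Finset.univ_unique, Finset.sum_singleton, Subsingleton.elim n default]
  have hkin := kinf_core hd1 v hvm T (Lcl (k + m)) (LTd.Kcl (k + m)) hT0 hL hK ρ₀ hρ₀m hρ₀0
    (ae_of_all _ hvs) (by
      intro φ hφ hφ0
      simp only [hvs]
      have h1 := a_GEN k m hk N u g hg hS (fun x => φ (ρ₀ x)) (hφ.comp hρ₀m)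
        (fun x x' e1 e2 => by
          show φ (ρ₀ x) = φ (ρ₀ x')
          have : ρ₀ x = ρ₀ x' := by
            show (rotMean k m F' x).toReal = (rotMean k m F' x').toReal
            rw [hI x x' e1 e2]
          rw [this])
        (fun x => hφ0 _ (hρ₀0 x))
      refine le_trans (le_of_eq ?_) h1
      have h2 : ∫⁻ x, ENNReal.ofReal (φ (ρ₀ x) * ρ₀ x) =
          ∫⁻ x, ENNReal.ofReal (φ (ρ₀ x)) * rotMean k m F' x := by
        refine lintegral_congr_ae ?_
        filter_upwards [hρ₀e] with x hx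
        rw [ENNReal.ofReal_mul (hφ0 _ (hρ₀0 x)), hx]
      have h3 : ∫⁻ x, ENNReal.ofReal (φ (ρ₀ x) * ∑ n, ‖u n x‖ ^ 2) =
          ∫⁻ x, ENNReal.ofReal (φ (ρ₀ x)) * F' x := by
        refine lintegral_congr_ae ?_
        filter_upwards [hFF] with x hx
        rw [ENNReal.ofReal_mul (hφ0 _ (hρ₀0 x)), ← hx]
      rw [h2, h3]
      exact (rotMean_int (m := m) hk1 hFm (V := fun x => ENNReal.ofReal (φ (ρ₀ x)))
        (hφ.comp hρ₀m).ennreal_ofReal (fun x x' e1 e2 => by
          have : ρ₀ x = ρ₀ x' := by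
            show (rotMean k m F' x).toReal = (rotMean k m F' x').toReal
            rw [hI x x' e1 e2]
          simp only [this])).symm)
  simp only [hvs] at hkin
  obtain ⟨hi, hle⟩ := hkin
  have hKp : 0 < LTd.Kcl (k + m) := by
    rw [hK]
    have : (0 : ℝ) < ((k + m : ℕ) : ℝ) := by exact_mod_cast hd1
    positivity
  have h4 : ∫⁻ x, rotMean k m F x ^ (1 + 2 / ((k + m : ℕ) : ℝ)) =
      ENNReal.ofReal (∫ x, ρ₀ x ^ (1 + 2 / ((k + m : ℕ) : ℝ))) := by
    rw [ofReal_integral_eq_lintegral_ofReal hi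
      (ae_of_all _ fun x => Real.rpow_nonneg (hρ₀0 x) _)]
    refine lintegral_congr_ae ?_
    filter_upwards [hMM, hρ₀e] with x hx hx2
    rw [hx, ← hx2, ENNReal.ofReal_rpow_of_nonneg (hρ₀0 x) (by positivity)]
  rw [h4, ← ENNReal.ofReal_mul hKp.le]
  exact ENNReal.ofReal_le_ofReal hle

end

end Pool.Agent.W2helper90.RT
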