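import Pool.Agent.N537.RS.Har
import Pool.Agent.Helper717.LT.Defs
import Pool.Agent.N303.SH.A
import Pool.Agent.R282.KO.Odd

/-!
# Project RT (helper90): the Lieb-Thirring inequality with the semiclassical constant for all
orthonormal systems and all potentials `V(|x|, y)`, `x ∈ ℝ^k`, `k ≥ 6`, `y ∈ ℝ^m`

Statements of the pieces, with proofs in the comments. The logarithmic variable is `x 0 = log |x|`,
the other coordinates `x i.succ = y i`, `x : Fin (m + 1) → ℝ`.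
-/

set_option autoImplicit false

open MeasureTheory Set Filter Topology Matrix

namespace Pool.Agent.W2helper90.RT

noncomputable section

open LTd (pd pp cc JJ bco)
open Pool.Agent.N537.RS (hdim Hpoly)

/-- the space with the logarithmic variable `x 0` and the variables `y` -/
abbrev X (m : ℕ) : Type := Fin (m + 1) → ℝ

/-- the variables `y` -/
def tl {m : ℕ} (x : X m) : Fin m → ℝ := fun i => x i.succ

/-! ## I. The core inequality in the logarithmic variable -/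

/-- **PIECE WT (weighted semiclassical inequality).**

Proof: copy of `LTd.T_succ` (`Helper717/LT/P_T_succ.lean`); `LTd.T_all` supplies `Tm m (g + 1/2)`; in
`hpoint` use `T_slice` with `bco (1/2) g a / θ`, `θ = exp (2 x)`, and multiply by `θ`. -/
def S_WT : Prop := ∀ (m : ℕ) (g a : ℝ), 3 / 2 ≤ g → 0 < a → ∀ (n : ℕ) (w : Fin n → X m → ℝ)
  (l : Fin n → ℝ), (∀ i, ContDiff ℝ 1 (w i)) → (∀ i, HasCompactSupport (w i)) →
  (∀ i j, ∫ x, w i x * w j x = if i = j then l i else 0) →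
  bco (((m + 1 : ℕ) : ℝ) / 2) g a *
      ∫ x : X m, Real.exp ((m : ℝ) / (g + ((m + 1 : ℕ) : ℝ) / 2 - 1) * x 0) *
        (∑ i, w i x ^ 2) ^ pp (g + ((m + 1 : ℕ) : ℝ) / 2) ≤
    (∫ x, ∑ i, pd 0 (w i) x ^ 2) +
      (∫ x : X m, Real.exp (2 * x 0) * ∑ k : Fin m, ∑ i, pd k.succ (w i) x ^ 2) +
      a * ∑ i, l i ^ pp g

/-- the form of the kinetic energy -/
def kin {m : ℕ} (f h : X m → ℝ) : ℝ :=
  ∫ x : X m, (pd 0 f x * pd 0 h x + Real.exp (2 * x 0) * ∑ k : Fin m, pd k.succ f x * pd k.succ h x)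

/-- the semiclassical constant for the exponent `(k - 1) / 2` in dimension `m + 1` -/
def Lc (k m : ℕ) : ℝ :=
  Real.Gamma (((k : ℝ) + 1) / 2) /
    ((4 * Real.pi) ^ (((m : ℝ) + 1) / 2) * Real.Gamma (((k : ℝ) + m) / 2 + 1))

/-- orthonormal family of `C¹` functions with compact support -/
structure ON {m n : ℕ} (ψ : Fin n → X m → ℝ) : Prop where
  smooth : ∀ i, ContDiff ℝ 1 (ψ i)
  supp : ∀ i, HasCompactSupport (ψ i)
  orth : ∀ i j, ∫ x, ψ i x * ψ j x = if i = j then (1 : ℝ) else 0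

/-- **PIECE EIG (dual form for one `τ`).** From WT.

Proof. `g = (k-1)/2 ≥ 3/2`, `h = (m+1)/2`, `G' = g + h = (k+m)/2`, `a = 1`, `x_i = max (-e_i) 0`,
`ν_i = (x_i / pp g) ^ (g - 1)`, `w_i = √ν_i ψ'_i`, where `ψ'_i = ∑_j u_i(j) ψ_j` belong to an
orthonormal basis of eigenvectors of `Q`. Then `∑ ν_i e_i = K - ∫ W ρ`, where `K` is the kinetic
energy of `w` and `ρ = ∑ w_i²`, and by WT
`cc g ∑ x_i ^ g = ∑ (ν_i x_i - ν_i ^ pp g) ≤ ∫ (W ρ - B e^(s x_0) ρ ^ pp G')`, `B = bco h g 1`,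
`s = m / (G' - 1)`. The integrand is at most `cc G' * (B e^(s x_0)) ^ (1 - G') * (max W 0) ^ G'`
(maximum over `ρ ≥ 0`), and `B ^ (1 - G') = (JJ h g)⁻¹`, `s (1 - G') = -m`,
`cc G' / (cc g * JJ h g) = Lc k m`. (`ofReal (∫ f) ≤ ∫⁻ ofReal f`, see `LA.ofReal_integral_le`.) -/
def S_EIG : Prop := ∀ (k m : ℕ), 4 ≤ k → ∀ (n : ℕ) (ψ : Fin n → X m → ℝ), ON ψ →
  ∀ W : X m → ℝ, Measurable W → (∃ C : ℝ, ∀ x, |W x| ≤ C * Real.exp (2 * x 0)) →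
  ∀ (Q : Matrix (Fin n) (Fin n) ℝ) (hQ : Q.IsHermitian),
    (∀ i j, Q i j = kin (ψ i) (ψ j) - ∫ x, W x * (ψ i x * ψ j x)) →
    ∑ i, ENNReal.ofReal ((max (-hQ.eigenvalues i) 0) ^ (((k : ℝ) - 1) / 2)) ≤
      ENNReal.ofReal (Lc k m) * ∫⁻ x : X m, ENNReal.ofReal (Real.exp (-((m : ℝ) * x 0)) *
        (max (W x) 0) ^ (((k : ℝ) + m) / 2))

/-- **PIECE MAT (the inequality for real matrices and suborthonormal families).** From
`Pool.Agent.N537.RS`: `IT.t_INT IN.t_INERT : S_INT`, `ME.t_MEAS IN.t_INERT : S_MEAS`,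
`CE.t_CELL : S_CELL` and the lemmas in `N537/RS/LA.lean`.

Proof. (1) `S_INT` for a family `v_a` of real vectors with `q(∑ c_a v_a) ≤ ∑ c_a²`, `q(v) = ⟨v, M v⟩`:
diagonalise the Gram matrix `⟨v_a, M v_b⟩ = U D Uᵀ`, `0 ≤ D_b ≤ 1`, `v'_b = ∑ U_ab v_a`, `D_b = q(v'_b)`;
for every quadratic form `∑_a Q(v_a) = ∑_b Q(v'_b)`; with `e_b = v'_b / √D_b` (`v'_b = 0` if `D_b = 0`)
`∑_b D_b (-Q(e_b)) ≤ ∑_{b ∈ J} (-Q(e_b))`, `J` = those with `-Q(e_b) > 0`, `D_b > 0`; here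
`Q(v) = ⟨v, A v⟩ + lam ⟨v, v⟩`. Apply `S_INT` to `e_b`, `b ∈ J` (as complex vectors, with the complex
matrices `A.map ofReal`, `M.map ofReal`).
(2) By `LA.cell` with the multiplicity `hdim k l`, divided by `hdim k l`, for every `l`, `j` one gets
`ofReal (- a_lj - ν_l² b_lj) ≤ (hdim k l)⁻¹ * 2 / (k-1)! * ∫⁻_{cell l} S`, sum over `j < g l ≤ hdim k l`, then
over `l` as in `LA.t_LA`.
(3) The eigenvalues of a real symmetric matrix and of the same matrix over `ℂ` agree (as multisets;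
characteristic polynomials). -/
def S_MAT : Prop := ∀ k : ℕ, 6 ≤ k → ∀ (n : ℕ) (A M : Matrix (Fin n) (Fin n) ℝ),
  A.IsHermitian → M.PosDef → ∀ (L : ℕ) (g : ℕ → ℕ), (∀ l < L, g l ≤ hdim k l) →
  ∀ (N : ℕ) (v : ∀ l, Fin (g l) → Fin N → Fin n → ℝ),
  (∀ l < L, ∀ (j : Fin (g l)) (c : Fin N → ℝ),
    (∑ a, c a • v l j a) ⬝ᵥ (M *ᵥ (∑ a, c a • v l j a)) ≤ ∑ a, c a ^ 2) →
  ∀ hH : ∀ τ : ℝ, (A + τ • M).IsHermitian,
  ENNReal.ofReal (∑ l ∈ Finset.range L, ∑ j, ∑ a, (-(v l j a ⬝ᵥ (A *ᵥ v l j a)) -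
      ((l : ℝ) + ((k : ℝ) - 2) / 2) ^ 2 * (v l j a ⬝ᵥ v l j a))) ≤
    ENNReal.ofReal (2 / ((k - 1).factorial : ℝ)) * ∫⁻ τ in Ioi (0 : ℝ),
      ∑ i, ENNReal.ofReal ((max (-(hH τ).eigenvalues i) 0) ^ (((k : ℝ) - 1) / 2))

/-- **PIECE TAU2 (Tonelli).** Compare `N537/RS/Tau.lean`: for every `x`
`∫_0^∞ (max (e^(2 x_0) (V - τ)) 0) ^ p dτ = e^(2 p x_0) V ^ (p + 1) / (p + 1)`, `p = (k + m) / 2`. -/
def S_TAU2 : Prop := ∀ (k m : ℕ), 6 ≤ k → ∀ V : X m → ℝ, Measurable V → (∀ x, 0 ≤ V x) →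
  ∫⁻ τ in Ioi (0 : ℝ), ∫⁻ x : X m, ENNReal.ofReal (Real.exp (-((m : ℝ) * x 0)) *
      (max (Real.exp (2 * x 0) * (V x - τ)) 0) ^ (((k : ℝ) + m) / 2)) =
    ENNReal.ofReal (2 / ((k : ℝ) + m + 2)) *
      ∫⁻ x : X m, ENNReal.ofReal (Real.exp (k * x 0) * V x ^ (1 + ((k : ℝ) + m) / 2))

/-- **PIECE GSR (Gram-Schmidt).** Compare `N537/RS/GS.lean`. Proof: the span of the `φ i` in the vector
space of the functions is finite dimensional and consists of `C¹` functions with compact support;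
`∫ f h` is an inner product on it (a continuous function with `∫ f² = 0` is zero). -/
def S_GSR : Prop := ∀ (m : ℕ) (ι : Type) [Fintype ι] (φ : ι → X m → ℝ), (∀ i, ContDiff ℝ 1 (φ i)) →
  (∀ i, HasCompactSupport (φ i)) → ∃ (n : ℕ) (ψ : Fin n → X m → ℝ) (c : ι → Fin n → ℝ), ON ψ ∧
    ∀ i x, φ i x = ∑ j, c i j * ψ j x

/-- **PIECE CORE.** From EIG, MAT, TAU2, GSR.

Proof. `φ l j a = ∑ v l j a i ψ i` (GSR), `M i i' = ∫ e^(2 x_0) ψ_i ψ_i'`,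
`A i i' = kin ψ_i ψ_i' - ∫ e^(2 x_0) V ψ_i ψ_i'`; MAT, then EIG with `W = e^(2 x_0) (V - τ)`, TAU2. -/
def S_CORE : Prop := ∀ (k m : ℕ), 6 ≤ k → ∀ (L : ℕ) (g : ℕ → ℕ), (∀ l < L, g l ≤ hdim k l) →
  ∀ (N : ℕ) (φ : ∀ l, Fin (g l) → Fin N → X m → ℝ), (∀ l j a, ContDiff ℝ 1 (φ l j a)) →
  (∀ l j a, HasCompactSupport (φ l j a)) →
  (∀ l < L, ∀ (j : Fin (g l)) (c : Fin N → ℝ),
    ∫ x : X m, Real.exp (2 * x 0) * (∑ a, c a * φ l j a x) ^ 2 ≤ ∑ a, c a ^ 2) →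
  ∀ V : X m → ℝ, Measurable V → (∀ x, 0 ≤ V x) → (∃ C : ℝ, ∀ x, V x ≤ C) →
  ENNReal.ofReal (∑ l ∈ Finset.range L, ∑ j, ∑ a,
    ((∫ x : X m, Real.exp (2 * x 0) * V x * φ l j a x ^ 2) - kin (φ l j a) (φ l j a) -
      ((l : ℝ) + ((k : ℝ) - 2) / 2) ^ 2 * ∫ x, φ l j a x ^ 2)) ≤
    ENNReal.ofReal (2 / ((k - 1).factorial : ℝ) * Lc k m * (2 / ((k : ℝ) + m + 2))) *
      ∫⁻ x : X m, ENNReal.ofReal (Real.exp (k * x 0) * V x ^ (1 + ((k : ℝ) + m) / 2))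

/-! ## II. Harmonics -/

/-- the Euclidean space -/
abbrev E (k : ℕ) : Type := EuclideanSpace ℝ (Fin k)

/-- the unit sphere -/
abbrev S (k : ℕ) : Type := Pool.Agent.N303.SH.S k

/-- the surface measure -/
abbrev sm (k : ℕ) : Measure (S k) := Pool.Agent.N303.SH.sg k

/-- the derivative along the rotation in the plane of the coordinates `i`, `j` -/
def rd {k : ℕ} (i j : Fin k) (f : E k → ℝ) (x : E k) : ℝ :=
  fderiv ℝ f x (x i • EuclideanSpace.single j (1 : ℝ) - x j • EuclideanSpace.single i (1 : ℝ))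

/-- the square of the tangential part of the gradient -/
def tang {k : ℕ} (f : E k → ℝ) (x : E k) : ℝ :=
  ∑ i, fderiv ℝ f x (EuclideanSpace.single i (1 : ℝ)) ^ 2 - fderiv ℝ f x x ^ 2

/-- **PIECE IBP (integration by parts on the sphere).** From `Pool.Agent.N303.SH.rotint`
(`N303/SH/G.lean`), applied to `f h`. -/
def S_IBP : Prop := ∀ (k : ℕ) (i j : Fin k) (f h : E k → ℝ), ContDiff ℝ 1 f → ContDiff ℝ 1 h →
  ∫ w : S k, rd i j f w * h w ∂(sm k) = -∫ w : S k, f w * rd i j h w ∂(sm k)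

/-- **PIECE CAS (Casimir identity).** `∑_{i,j} (x_i ∂_j - x_j ∂_i)² = 2 (|x|² Δ - D (D + k - 2))`,
`D = ∑ x_i ∂_i`; for a harmonic homogeneous polynomial `Δ p = 0`, `D p = l p`. (Compute with
`MvPolynomial.pderiv`, then evaluate.) -/
def S_CAS : Prop := ∀ (k l : ℕ), 2 ≤ k → ∀ p ∈ Hpoly k l, ∀ x : E k,
  ∑ i, ∑ j, rd i j (rd i j fun x => MvPolynomial.eval (fun i => x i) p) x =
    -(2 * ((l : ℝ) * (l + k - 2)) * MvPolynomial.eval (fun i => x i) p)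

/-- an element of `C(S k, ℝ)` which is the restriction of a harmonic homogeneous polynomial -/
def IsH (k l : ℕ) (e : C(S k, ℝ)) : Prop :=
  ∃ p ∈ Hpoly k l, ∀ w : S k, e w = MvPolynomial.eval (fun i => (w : E k) i) p

/-- a finite or infinite family `e l j`, `j < g l`, of orthonormal harmonics -/
structure Orth (k : ℕ) (g : ℕ → ℕ) (e : ∀ l, Fin (g l) → C(S k, ℝ)) : Prop where
  harm : ∀ l j, IsH k l (e l j)
  one : ∀ l j j', ∫ w, e l j w * e l j' w ∂(sm k) = if j = j' then (1 : ℝ) else 0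
  ne : ∀ l l' j j', l ≠ l' → ∫ w, e l j w * e l' j' w ∂(sm k) = 0

/-- **PIECE ANG (Bessel's inequality for the tangential gradient).** From IBP, CAS.

Proof. `c_lj = ∫ e_lj f`, `F = ∑_{l < L, j} c_lj P_lj` (`P_lj` the polynomial of `e_lj`). On the sphere
`∑_{i,j} (rd i j f)² = 2 tang f` (Lagrange's identity). Expand `0 ≤ ∑_{i,j} ∫ (rd i j f - rd i j F)²`; by
IBP and CAS `∑_{i,j} ∫ rd i j f * rd i j F = - ∑_{i,j} ∫ f * rd i j (rd i j F) = 2 ∑ l (l + k - 2) c_lj²`, and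
the same value for `∑ ∫ (rd i j F)²`. -/
def S_ANG : Prop := ∀ (k : ℕ), 3 ≤ k → ∀ (g : ℕ → ℕ) (e : ∀ l, Fin (g l) → C(S k, ℝ)), Orth k g e →
  ∀ f : E k → ℝ, ContDiff ℝ 1 f → ∀ L : ℕ,
    ∑ l ∈ Finset.range L, ∑ j, ((l : ℝ) * (l + k - 2)) * (∫ w, e l j w * f w ∂(sm k)) ^ 2 ≤
      ∫ w : S k, tang f w ∂(sm k)

/-- **PIECE PERP (harmonics of different degrees are orthogonal).** From IBP, CAS:
`l (l + k - 2) ∫ e e' = -1/2 ∑ ∫ (rd i j)² e * e' = -1/2 ∑ ∫ e * (rd i j)² e' = l' (l' + k - 2) ∫ e e'`. -/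
def S_PERP : Prop := ∀ (k l l' : ℕ), 3 ≤ k → l ≠ l' → ∀ e e' : C(S k, ℝ), IsH k l e → IsH k l' e' →
  ∫ w, e w * e' w ∂(sm k) = 0

/-- **PIECE DENS (the harmonics are dense).** Stone-Weierstrass for the polynomials on the sphere (compare
`N303/SH/K6.lean`); every homogeneous polynomial `p` of degree `l` is `h + |x|² q`, `h ∈ Hpoly k l`, `q`
homogeneous of degree `l - 2` (dimensions: `Helper477/Sph/HarmInv.lean`, `N537/RS/HDim.lean`: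
`finrank Hpoly k l = hdim k l`, and `Hpoly k l ∩ |x|² 𝒫 = 0`; or induction with the surjectivity of the
Laplacian), and `|x|² = 1` on the sphere. -/
def S_DENS : Prop := ∀ (k : ℕ), 3 ≤ k → ∀ (f : C(S k, ℝ)) (ε : ℝ), 0 < ε →
  ∃ (L : ℕ) (p : ℕ → C(S k, ℝ)), (∀ l, IsH k l (p l)) ∧
    ∀ w, |f w - ∑ l ∈ Finset.range L, p l w| ≤ ε

/-- **PIECE HARM (existence and completeness of orthonormal harmonics).** From PERP, DENS,
`HD.t_HDIM : S_HDIM` (`N537/RS/HDim.lean`).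

Proof. The restrictions of `Hpoly k l` form a subspace `V_l` of `C(S k, ℝ)` of dimension at most
`finrank Hpoly k l = hdim k l`; an orthonormal basis by `Pool.Agent.N303.SH.exists_on`
(`N303/SH/C.lean`). Parseval: `∫ (f - ∑ c e)² ≤ ∫ (f - ∑ p_l)²` for the projection, and DENS. -/
def S_HARM : Prop := ∀ (k : ℕ), 3 ≤ k → ∃ (g : ℕ → ℕ) (e : ∀ l, Fin (g l) → C(S k, ℝ)),
  (∀ l, g l ≤ hdim k l) ∧ Orth k g e ∧
    ∀ f : C(S k, ℝ), Tendsto (fun L => ∑ l ∈ Finset.range L, ∑ j, (∫ w, e l j w * f w ∂(sm k)) ^ 2)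
      atTop (𝓝 (∫ w, f w ^ 2 ∂(sm k)))

/-! ## III. Decomposition of functions on `ℝ^k × ℝ^m` -/

/-- `ℝ^k × ℝ^m` -/
abbrev Z (k m : ℕ) : Type := E k × (Fin m → ℝ)

/-- **PIECE POL (polar coordinates, logarithmic).** Tonelli for the product; for fixed `y` polar
coordinates (`MeasureTheory.Measure.measurePreserving_homeomorphUnitSphereProd`, or
`N303/SH/K3.lean`), `r = e^t` (`MeasureTheory.lintegral_image_eq_lintegral_abs_deriv_mul` or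
`lintegral_comp_...`), and `X m ≃ ℝ × (Fin m → ℝ)` (`volume_preserving_piFinSuccAbove`). -/
def S_POL : Prop := ∀ (k m : ℕ), 1 ≤ k → ∀ F : Z k m → ENNReal, Measurable F →
  ∫⁻ z, F z = ∫⁻ x : X m, ENNReal.ofReal (Real.exp (k * x 0)) *
    ∫⁻ w : S k, F (Real.exp (x 0) • (w : E k), tl x) ∂(sm k)

/-- `C¹` functions with compact support which vanish near `{0} × ℝ^m` -/
structure Good {k m : ℕ} (u : Z k m → ℝ) : Prop where
  smooth : ContDiff ℝ 1 u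
  supp : HasCompactSupport u
  away : ∃ ε : ℝ, 0 < ε ∧ ∀ z : Z k m, ‖z.1‖ < ε → u z = 0

/-- the exponent `(k - 2) / 2` -/
def al (k : ℕ) : ℝ := ((k : ℝ) - 2) / 2

/-- the function in polar coordinates -/
def UU {k m : ℕ} (u : Z k m → ℝ) (x : X m) (w : E k) : ℝ :=
  Real.exp (al k * x 0) * u (Real.exp (x 0) • w, tl x)

/-- its derivative with respect to `x 0` -/
def U0 {k m : ℕ} (u : Z k m → ℝ) (x : X m) (w : E k) : ℝ :=
  al k * UU u x w +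
    Real.exp ((al k + 1) * x 0) * fderiv ℝ u (Real.exp (x 0) • w, tl x) (w, 0)

/-- its derivative with respect to `x j.succ` -/
def Uj {k m : ℕ} (u : Z k m → ℝ) (j : Fin m) (x : X m) (w : E k) : ℝ :=
  Real.exp (al k * x 0) * fderiv ℝ u (Real.exp (x 0) • w, tl x) (0, Pi.single j 1)

/-- the component of `u` with respect to `e` -/
def ph {k m : ℕ} (e : C(S k, ℝ)) (u : Z k m → ℝ) (x : X m) : ℝ :=
  ∫ w : S k, e w * UU u x w ∂(sm k)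

/-- **PIECE PH (regularity of the components).** Differentiation under the integral sign over the
compact sphere. Compact support: `u` vanishes for small and for large `|x|`, and for large `y`. -/
def S_PH : Prop := ∀ (k m : ℕ), 1 ≤ k → ∀ (e : C(S k, ℝ)) (u : Z k m → ℝ), Good u →
  ContDiff ℝ 1 (ph e u) ∧ HasCompactSupport (ph e u) ∧
    (∀ x, pd 0 (ph e u) x = ∫ w : S k, e w * U0 u x w ∂(sm k)) ∧
    ∀ j x, pd j.succ (ph e u) x = ∫ w : S k, e w * Uj u j x w ∂(sm k)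

/-- `|∇u|²` -/
def gr2 {k m : ℕ} (u : Z k m → ℝ) (z : Z k m) : ℝ :=
  ∑ i : Fin k, fderiv ℝ u z (EuclideanSpace.single i (1 : ℝ), 0) ^ 2 +
    ∑ j : Fin m, fderiv ℝ u z (0, Pi.single j 1) ^ 2

/-- **PIECE LEN (the `L²` norms in polar coordinates).** From POL. (`k = 2 + 2 al k`.) The functions
`x ↦ ∫_S ...` are bounded with compact support and measurable. -/
def S_LEN : Prop := ∀ (k m : ℕ), 3 ≤ k → ∀ (u : Z k m → ℝ), Good u →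
  ∀ V : X m → ℝ, Measurable V → (∃ C : ℝ, ∀ x, |V x| ≤ C) →
  Integrable (fun x : X m => Real.exp (2 * x 0) * V x * ∫ w : S k, UU u x w ^ 2 ∂(sm k)) ∧
  ∫ z : Z k m, V (Fin.cons (Real.log ‖z.1‖) z.2 : X m) * u z ^ 2 =
    ∫ x : X m, Real.exp (2 * x 0) * V x * ∫ w : S k, UU u x w ^ 2 ∂(sm k)

/-- **PIECE ENE (the kinetic energy in polar coordinates).** From POL.

Proof. At `z = (e^(x_0) w, y)`, `|w| = 1`: `∑_i (∂_i u)² = (∂_w u)² + e^(-2 x_0) tang (u(e^(x_0) ·, y)) w`,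
`e^(k x_0) (∂_w u)² = (U0 - al UU)²`, and `∫ U0 UU dx = 1/2 ∫ ∂_0 (UU²) dx = 0` for every `w`. -/
def S_ENE : Prop := ∀ (k m : ℕ), 3 ≤ k → ∀ (u : Z k m → ℝ), Good u →
  Integrable (fun x : X m => ∫ w : S k, (U0 u x w ^ 2 + al k ^ 2 * UU u x w ^ 2 +
    tang (UU u x) w + Real.exp (2 * x 0) * ∑ j, Uj u j x w ^ 2) ∂(sm k)) ∧
  ∫ z : Z k m, gr2 u z = ∫ x : X m, ∫ w : S k, (U0 u x w ^ 2 + al k ^ 2 * UU u x w ^ 2 +
    tang (UU u x) w + Real.exp (2 * x 0) * ∑ j, Uj u j x w ^ 2) ∂(sm k)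

/-- **PIECE BES (the components carry at most the energy).** From ENE, PH, ANG; Bessel's inequality for
the orthonormal system `e l j` at every `x`, `(l + al k)² = al k ² + l (l + k - 2)`. -/
def S_BES : Prop := ∀ (k m : ℕ), 3 ≤ k → ∀ (g : ℕ → ℕ) (e : ∀ l, Fin (g l) → C(S k, ℝ)),
  Orth k g e → ∀ (u : Z k m → ℝ), Good u → ∀ L : ℕ,
    ∑ l ∈ Finset.range L, ∑ j, (kin (ph (e l j) u) (ph (e l j) u) +
      ((l : ℝ) + ((k : ℝ) - 2) / 2) ^ 2 * ∫ x, ph (e l j) u x ^ 2) ≤ ∫ z, gr2 u z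

/-- **PIECE PAR (potential energy of the components).** From LEN, PH, HARM (Parseval at every `x`,
dominated convergence). Also suborthonormality: Cauchy-Schwarz on the sphere, `ph e` is linear. -/
def S_PAR : Prop := ∀ (k m : ℕ), 3 ≤ k → ∀ (g : ℕ → ℕ) (e : ∀ l, Fin (g l) → C(S k, ℝ)),
  Orth k g e →
  (∀ f : C(S k, ℝ), Tendsto (fun L => ∑ l ∈ Finset.range L, ∑ j, (∫ w, e l j w * f w ∂(sm k)) ^ 2)
      atTop (𝓝 (∫ w, f w ^ 2 ∂(sm k)))) →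
  (∀ (u : Z k m → ℝ), Good u → ∀ V : X m → ℝ, Measurable V → (∃ C : ℝ, ∀ x, |V x| ≤ C) →
    Tendsto (fun L => ∑ l ∈ Finset.range L, ∑ j, ∫ x : X m, Real.exp (2 * x 0) * V x *
      ph (e l j) u x ^ 2) atTop (𝓝 (∫ z : Z k m, V (Fin.cons (Real.log ‖z.1‖) z.2 : X m) * u z ^ 2))) ∧
  ∀ (N : ℕ) (u : Fin N → Z k m → ℝ), (∀ a, Good (u a)) →
    (∀ c : Fin N → ℝ, ∫ z, (∑ a, c a * u a z) ^ 2 ≤ ∑ a, c a ^ 2) →
    ∀ l j, ∀ c : Fin N → ℝ,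
      ∫ x : X m, Real.exp (2 * x 0) * (∑ a, c a * ph (e l j) (u a) x) ^ 2 ≤ ∑ a, c a ^ 2

/-- **PIECE POT.** From CORE, HARM, PH, BES, PAR. For every `L`
`∑_a (∑_{l<L,j} ∫ e^(2 x_0) V ph² - ∫ gr2 u_a) ≤` (BES) `≤ ∑_{a,l,j} (∫ e^(2x_0) V ph² - kin - ν_l² ∫ ph²) ≤` (CORE),
and `L → ∞` (PAR). -/
def S_POT : Prop := ∀ (k m : ℕ), 6 ≤ k → ∀ (N : ℕ) (u : Fin N → Z k m → ℝ), (∀ a, Good (u a)) →
  (∀ c : Fin N → ℝ, ∫ z, (∑ a, c a * u a z) ^ 2 ≤ ∑ a, c a ^ 2) →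
  ∀ V : X m → ℝ, Measurable V → (∀ x, 0 ≤ V x) → (∃ C : ℝ, ∀ x, V x ≤ C) →
  ENNReal.ofReal (∑ a, ((∫ z : Z k m, V (Fin.cons (Real.log ‖z.1‖) z.2 : X m) * u a z ^ 2) -
      ∫ z, gr2 (u a) z)) ≤
    ENNReal.ofReal (2 / ((k - 1).factorial : ℝ) * Lc k m * (2 / ((k : ℝ) + m + 2))) *
      ∫⁻ x : X m, ENNReal.ofReal (Real.exp (k * x 0) * V x ^ (1 + ((k : ℝ) + m) / 2))

/-! ## IV. Functions on `ℝ^(k+m)` -/

/-- invariance under the rotations of the first `k` coordinates -/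
def Inv (k m : ℕ) (V : (Fin (k + m) → ℝ) → ℝ) : Prop := ∀ x x' : Fin (k + m) → ℝ,
  (∑ i : Fin k, x (Fin.castAdd m i) ^ 2 = ∑ i : Fin k, x' (Fin.castAdd m i) ^ 2) →
  (∀ j : Fin m, x (Fin.natAdd k j) = x' (Fin.natAdd k j)) → V x = V x'

/-- the semiclassical constant for the sum of the negative eigenvalues in dimension `d` -/
def Lcl (d : ℕ) : ℝ := ((4 * Real.pi) ^ ((d : ℝ) / 2) * Real.Gamma ((d : ℝ) / 2 + 2))⁻¹

/-- **PIECE CST2 (constants).** (a) Legendre's duplication formula (`Real.Gamma_mul_Gamma_add_half`);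
`sg k = k ω_k` is the area of the sphere (`R117/RL/Rad.lean`, `ShellCst.lean: sg_sq`, `Cst.lean: om_sq`).
(b) the volume of the unit ball, `ω_d = π^(d/2) / Γ(d/2+1)` (`EuclideanSpace.volume_ball`, or
`LTd` final constants `Helper717/LT/P_const_final.lean`). -/
def S_CST2 : Prop :=
  (∀ k m : ℕ, 6 ≤ k → 2 / ((k - 1).factorial : ℝ) * Lc k m * (2 / ((k : ℝ) + m + 2)) =
    Pool.Agent.R117.RL.sg k * Lcl (k + m)) ∧
  (∀ k : ℕ, 1 ≤ k → (sm k) univ = ENNReal.ofReal (Pool.Agent.R117.RL.sg k)) ∧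
  ∀ d : ℕ, 1 ≤ d → 0 < Lcl d ∧
    LTd.Kcl d = (d : ℝ) / (d + 2) * (2 / (Lcl d * ((d : ℝ) + 2))) ^ (2 / (d : ℝ))

/-- **PIECE FLAT.** From POT, POL, CST2. The linear map `x ↦ (first k coordinates, last m coordinates)`
from `Fin (k + m) → ℝ` to `Z k m` preserves the measure
(`EuclideanSpace.volume_preserving_measurableEquiv`, `volume_preserving_sumPiEquivProdPi`,
`Fin.appendEquiv`, ...). `V x = V' (log |first k|, last m)` with `V' y = V (e^(y_0), 0, …, 0, tail y)`,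
and by POL `∫⁻ V ^ (1 + d/2) = sg k ∫⁻ e^(k x_0) V' ^ (1 + d/2)`. -/
def S_FLAT : Prop := ∀ (k m : ℕ), 6 ≤ k → ∀ (N : ℕ) (w : Fin N → (Fin (k + m) → ℝ) → ℝ),
  (∀ a, ContDiff ℝ 1 (w a)) → (∀ a, HasCompactSupport (w a)) →
  (∃ ε : ℝ, 0 < ε ∧ ∀ a x, (∑ i : Fin k, x (Fin.castAdd m i) ^ 2 < ε ^ 2) → w a x = 0) →
  (∀ c : Fin N → ℝ, ∫ x, (∑ a, c a * w a x) ^ 2 ≤ ∑ a, c a ^ 2) →
  ∀ V : (Fin (k + m) → ℝ) → ℝ, Measurable V → Inv k m V → (∀ x, 0 ≤ V x) → (∃ C : ℝ, ∀ x, V x ≤ C) →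
  ENNReal.ofReal (∑ a, ((∫ x, V x * w a x ^ 2) - ∫ x, ∑ i, pd i (w a) x ^ 2)) ≤
    ENNReal.ofReal (Lcl (k + m)) *
      ∫⁻ x, ENNReal.ofReal (V x ^ (1 + ((k + m : ℕ) : ℝ) / 2))

/-- **PIECE CUT.** From FLAT: multiply the `w a` by `χ(|x'|/ε)`, `x'` the first `k` coordinates, `χ` smooth
with `χ = 0` on `[0,1]`, `χ = 1` on `[2, ∞)`, `0 ≤ χ ≤ 1`, and let `ε → 0`:
`ε^(-2) vol {|x'| ≤ 2 ε} ∩ supp → 0`. -/
def S_CUT : Prop := ∀ (k m : ℕ), 6 ≤ k → ∀ (N : ℕ) (w : Fin N → (Fin (k + m) → ℝ) → ℝ),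
  (∀ a, ContDiff ℝ 1 (w a)) → (∀ a, HasCompactSupport (w a)) →
  (∀ c : Fin N → ℝ, ∫ x, (∑ a, c a * w a x) ^ 2 ≤ ∑ a, c a ^ 2) →
  ∀ V : (Fin (k + m) → ℝ) → ℝ, Measurable V → Inv k m V → (∀ x, 0 ≤ V x) → (∃ C : ℝ, ∀ x, V x ≤ C) →
  ENNReal.ofReal (∑ a, ((∫ x, V x * w a x ^ 2) - ∫ x, ∑ i, pd i (w a) x ^ 2)) ≤
    ENNReal.ofReal (Lcl (k + m)) *
      ∫⁻ x, ENNReal.ofReal (V x ^ (1 + ((k + m : ℕ) : ℝ) / 2))

open Pool.Agent.R282.KO in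
/-- **PIECE SOB.** From CUT and `Approx2` (`W2helper12/LT/Approx2.lean`): the real and imaginary parts of
the `u n` are a system of `2 N` real functions in `H¹` with
`∫ (∑ c_a f_a)² ≤ ∑ c_a²`; approximate by `Approx2`, both sides converge (`V` is bounded). -/
def S_SOB : Prop := ∀ (k m : ℕ), 6 ≤ k → ∀ (N : ℕ) (u : Fin N → (Fin (k + m) → ℝ) → ℂ)
  (g : Fin N → Fin (k + m) → (Fin (k + m) → ℝ) → ℂ), (∀ n, LTd.WGradC (u n) (g n)) → SubGram u →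
  ∀ V : (Fin (k + m) → ℝ) → ℝ, Measurable V → Inv k m V → (∀ x, 0 ≤ V x) → (∃ C : ℝ, ∀ x, V x ≤ C) →
  ENNReal.ofReal ((∫ x, V x * ∑ n, ‖u n x‖ ^ 2) - ∑ n, ∑ i, ∫ x, ‖g n i x‖ ^ 2) ≤
    ENNReal.ofReal (Lcl (k + m)) *
      ∫⁻ x, ENNReal.ofReal (V x ^ (1 + ((k + m : ℕ) : ℝ) / 2))

open Pool.Agent.R282.KO in
/-- **PIECE GEN (all potentials).** From SOB by monotone convergence: `min V n`. -/
def S_GEN : Prop := ∀ (k m : ℕ), 6 ≤ k → ∀ (N : ℕ) (u : Fin N → (Fin (k + m) → ℝ) → ℂ)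
  (g : Fin N → Fin (k + m) → (Fin (k + m) → ℝ) → ℂ), (∀ n, LTd.WGradC (u n) (g n)) → SubGram u →
  ∀ V : (Fin (k + m) → ℝ) → ℝ, Measurable V → Inv k m V → (∀ x, 0 ≤ V x) →
  ∫⁻ x, ENNReal.ofReal (V x * ∑ n, ‖u n x‖ ^ 2) ≤
    ENNReal.ofReal (∑ n, ∑ i, ∫ x, ‖g n i x‖ ^ 2) +
    ENNReal.ofReal (Lcl (k + m)) *
      ∫⁻ x, ENNReal.ofReal (V x ^ (1 + ((k + m : ℕ) : ℝ) / 2))

open Pool.Agent.R282.KO in
/-- **PIECE KINF (the kinetic inequality for invariant densities).** From GEN, CST2.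

Proof. `V = (c ρ_M) ^ (2/d)`, `ρ_M = ρ₀` if `ρ₀ ≤ M` and `|x| ≤ M` (Euclidean norm), otherwise `0`
(invariant), `c = 2 / (Lcl d (d + 2))`: `c^(2/d) (1 - Lcl d c) ∫ ρ_M^(1+2/d) ≤ T`; `M → ∞`. -/
def S_KINF : Prop := ∀ (k m : ℕ), 6 ≤ k → ∀ (N : ℕ) (u : Fin N → (Fin (k + m) → ℝ) → ℂ)
  (g : Fin N → Fin (k + m) → (Fin (k + m) → ℝ) → ℂ), (∀ n, LTd.WGradC (u n) (g n)) → SubGram u →
  ∀ ρ₀ : (Fin (k + m) → ℝ) → ℝ, Measurable ρ₀ → Inv k m ρ₀ → (∀ x, 0 ≤ ρ₀ x) →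
  (∀ᵐ x, ∑ n, ‖u n x‖ ^ 2 = ρ₀ x) →
  Integrable (fun x => (∑ n, ‖u n x‖ ^ 2) ^ (1 + 2 / ((k + m : ℕ) : ℝ))) ∧
  LTd.Kcl (k + m) * ∫ x, (∑ n, ‖u n x‖ ^ 2) ^ (1 + 2 / ((k + m : ℕ) : ℝ)) ≤
    ∑ n, ∑ i, ∫ x, ‖g n i x‖ ^ 2

end

end Pool.Agent.W2helper90.RT
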